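import Pool.Agent.Lib.MP_094185_gt.Defs

open scoped Quaternion

namespace Sam094185

/-- the matrix of the right multiplication -/
private def Rm (u : ℍ[ℝ]) : Matrix (Fin 4) (Fin 4) ℝ :=
  !![u.re, u.imI, u.imJ, u.imK; -u.imI, u.re, -u.imK, u.imJ; -u.imJ, u.imK, u.re, -u.imI;
    -u.imK, -u.imJ, u.imI, u.re]

private lemma det_Rm (u : ℍ[ℝ]) : (Rm u).det = (u.re ^ 2 + u.imI ^ 2 + u.imJ ^ 2 + u.imK ^ 2) ^ 2 := by
  unfold Rm
  simp [Matrix.det_succ_row_zero, Fin.sum_univ_succ, Fin.succAbove]
  ring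

private lemma nq {u : ℍ[ℝ]} (h : ‖u‖ = 1) : u.re ^ 2 + u.imI ^ 2 + u.imJ ^ 2 + u.imK ^ 2 = 1 := by
  rw [← Quaternion.normSq_def', Quaternion.normSq_eq_norm_mul_self, h, one_mul]

private lemma det4_mul {u : ℍ[ℝ]} (h : ‖u‖ = 1) (x y z w : ℍ[ℝ]) :
    det4 (x * u) (y * u) (z * u) (w * u) = det4 x y z w := by
  have h1 : det4 (x * u) (y * u) (z * u) (w * u) =
      (!![x.re, x.imI, x.imJ, x.imK; y.re, y.imI, y.imJ, y.imK;
        z.re, z.imI, z.imJ, z.imK; w.re, w.imI, w.imJ, w.imK] * Rm u).det := by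
    unfold det4 Rm
    congr 1
    ext i j
    fin_cases i <;> fin_cases j <;> simp [Matrix.mul_apply, Fin.sum_univ_four] <;> ring
  rw [h1, Matrix.det_mul, det_Rm, nq h, one_pow, mul_one]
  rfl

private lemma det4_one (x y z : ℍ[ℝ]) : det4 1 x y z = det3 x y z := by
  unfold det4 det3
  simp [Matrix.det_succ_row_zero, Fin.sum_univ_succ, Fin.succAbove]

/-- the matrix of a conjugation -/
private def Cm (u : ℍ[ℝ]) : Matrix (Fin 3) (Fin 3) ℝ :=
  !![u.re ^ 2 + u.imI ^ 2 - u.imJ ^ 2 - u.imK ^ 2, 2 * (u.imI * u.imJ + u.re * u.imK), 2 * (u.imI * u.imK - u.re * u.imJ);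
    2 * (u.imI * u.imJ - u.re * u.imK), u.re ^ 2 - u.imI ^ 2 + u.imJ ^ 2 - u.imK ^ 2, 2 * (u.imJ * u.imK + u.re * u.imI);
    2 * (u.imI * u.imK + u.re * u.imJ), 2 * (u.imJ * u.imK - u.re * u.imI), u.re ^ 2 - u.imI ^ 2 - u.imJ ^ 2 + u.imK ^ 2]

private lemma det_Cm (u : ℍ[ℝ]) : (Cm u).det = (u.re ^ 2 + u.imI ^ 2 + u.imJ ^ 2 + u.imK ^ 2) ^ 3 := by
  unfold Cm
  rw [Matrix.det_fin_three]
  simp
  ring

private lemma det3_conj {u : ℍ[ℝ]} (h : ‖u‖ = 1) (x y z : ℍ[ℝ]) :
    det3 (u * x * star u) (u * y * star u) (u * z * star u) = det3 x y z := by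
  have h1 : det3 (u * x * star u) (u * y * star u) (u * z * star u) =
      (!![x.imI, x.imJ, x.imK; y.imI, y.imJ, y.imK; z.imI, z.imJ, z.imK] * Cm u).det := by
    unfold det3 Cm
    congr 1
    ext i j
    fin_cases i <;> fin_cases j <;> simp [Matrix.mul_apply, Fin.sum_univ_three] <;> ring
  rw [h1, Matrix.det_mul, det_Cm, nq h, one_pow, mul_one]
  rfl

private lemma star_mul_self' {u : ℍ[ℝ]} (h : ‖u‖ = 1) : star u * u = 1 := by
  rw [Quaternion.star_mul_self, Quaternion.normSq_eq_norm_mul_self, h, one_mul, Quaternion.coe_one]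

private lemma self_mul_star' {u : ℍ[ℝ]} (h : ‖u‖ = 1) : u * star u = 1 := by
  rw [Quaternion.self_mul_star, Quaternion.normSq_eq_norm_mul_self, h, one_mul, Quaternion.coe_one]

private lemma det3_cross {p : ℍ[ℝ]} (h : ‖p‖ = 1) (x b c : ℍ[ℝ]) :
    det3 x (b - star p * b * p) (c - star p * c * p) = 4 * dot x p * det3 p b c := by
  have hp := nq h
  have key : ∀ b : ℍ[ℝ], (b - star p * b * p).imI = 2 * ((p.imI ^ 2 + p.imJ ^ 2 + p.imK ^ 2) * b.imI -
      (p.imI * b.imI + p.imJ * b.imJ + p.imK * b.imK) * p.imI + p.re * (p.imJ * b.imK - p.imK * b.imJ)) ∧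
      (b - star p * b * p).imJ = 2 * ((p.imI ^ 2 + p.imJ ^ 2 + p.imK ^ 2) * b.imJ -
      (p.imI * b.imI + p.imJ * b.imJ + p.imK * b.imK) * p.imJ + p.re * (p.imK * b.imI - p.imI * b.imK)) ∧
      (b - star p * b * p).imK = 2 * ((p.imI ^ 2 + p.imJ ^ 2 + p.imK ^ 2) * b.imK -
      (p.imI * b.imI + p.imJ * b.imJ + p.imK * b.imK) * p.imK + p.re * (p.imI * b.imJ - p.imJ * b.imI)) := by
    intro b
    refine ⟨?_, ?_, ?_⟩
    · simp
      linear_combination -b.imI * hp
    · simp
      linear_combination -b.imJ * hp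
    · simp
      linear_combination -b.imK * hp
  unfold det3 dot
  rw [Matrix.det_fin_three, Matrix.det_fin_three]
  obtain ⟨b1, b2, b3⟩ := key b
  obtain ⟨c1, c2, c3⟩ := key c
  simp only [Matrix.of_apply, Matrix.cons_val', Matrix.cons_val_zero, Matrix.cons_val_one, Matrix.cons_val_fin_one,
    Matrix.cons_val]
  rw [b1, b2, b3, c1, c2, c3]
  linear_combination (4 * (x.imI * p.imI + x.imJ * p.imJ + x.imK * p.imK) * (p.imI * b.imJ * c.imK -
    p.imI * b.imK * c.imJ - p.imJ * b.imI * c.imK + p.imJ * b.imK * c.imI + p.imK * b.imI * c.imJ -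
    p.imK * b.imJ * c.imI)) * hp

private lemma dot_conj {q : ℍ[ℝ]} (a p : ℍ[ℝ]) :
    dot (star q * a * q - a) p = dot a (wvec p q) := by
  unfold dot wvec
  simp
  ring

theorem det_samelson (p q a b c : ℍ[ℝ]) (hp : ‖p‖ = 1) (hq : ‖q‖ = 1) (ha : a.re = 0) (hb : b.re = 0) (hc : c.re = 0) :
    |det4 (p * q * star p * star q)
      (p * a * q * star p * star q - p * q * a * star p * star q)
      (p * q * b * star p * star q - p * q * star p * b * star q)
      (p * q * c * star p * star q - p * q * star p * c * star q)| =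
    4 * |dot a (wvec p q)| * |det3 p b c| := by
  have p1 := star_mul_self' hp
  have p2 := self_mul_star' hp
  have q1 := star_mul_self' hq
  have q2 := self_mul_star' hq
  have hu : ‖q * p * star q * star p‖ = 1 := by
    rw [norm_mul, norm_mul, norm_mul, norm_star, norm_star, hp, hq]
    norm_num
  have e1 : p * q * star p * star q * (q * p * star q * star p) = 1 := by
    calc _ = p * q * (star p * (star q * q) * p) * star q * star p := by noncomm_ring
      _ = 1 := by rw [q1, mul_one, p1, mul_one, mul_assoc p, q2, mul_one, p2]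
  have e2 : (p * a * q * star p * star q - p * q * a * star p * star q) * (q * p * star q * star p) =
      p * (a - q * a * star q) * star p := by
    calc _ = p * a * q * (star p * (star q * q) * p) * star q * star p -
        p * q * a * (star p * (star q * q) * p) * star q * star p := by noncomm_ring
      _ = p * a * (q * star q) * star p - p * q * a * star q * star p := by
        rw [q1, mul_one, p1]; noncomm_ring
      _ = _ := by rw [q2]; noncomm_ring
  have e3 : ∀ b : ℍ[ℝ], (p * q * b * star p * star q - p * q * star p * b * star q) * (q * p * star q * star p) =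
      p * (q * (b - star p * b * p) * star q) * star p := by
    intro b
    calc _ = p * q * b * (star p * (star q * q) * p) * star q * star p -
        p * q * star p * b * (star q * q) * p * star q * star p := by noncomm_ring
      _ = _ := by rw [q1, mul_one, p1]; noncomm_ring
  have e4 : a - q * a * star q = q * (star q * a * q - a) * star q := by
    calc a - q * a * star q = (q * star q) * a * (q * star q) - q * a * star q := by rw [q2]; noncomm_ring
      _ = _ := by noncomm_ring
  have h1 : det4 (p * q * star p * star q)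
      (p * a * q * star p * star q - p * q * a * star p * star q)
      (p * q * b * star p * star q - p * q * star p * b * star q)
      (p * q * c * star p * star q - p * q * star p * c * star q) = 4 * dot a (wvec p q) * det3 p b c := by
    rw [← det4_mul hu, e1, e2, e3, e3, det4_one, e4, det3_conj hp, det3_conj hq, det3_cross hp, dot_conj]
  rw [h1, abs_mul, abs_mul, abs_of_pos (by norm_num : (0 : ℝ) < 4)]

end Sam094185
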