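import Pool.Agent.Lib.MP_094185_gt.Defs

open scoped Quaternion
open MeasureTheory

namespace Sam094185

private abbrev E4 := EuclideanSpace ℝ (Fin 4)

/-- the last three coordinates of a point of `R^4` -/
private noncomputable def areaTl : E4 →L[ℝ] E3 :=
  LinearMap.toContinuousLinearMap
    { toFun := fun w => WithLp.toLp 2 (fun i : Fin 3 => w i.succ)
      map_add' := fun a b => by ext i; simp
      map_smul' := fun a b => by ext i; simp }

private lemma areaTl_apply (w : E4) (i : Fin 3) : areaTl w i = w i.succ := rfl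

private noncomputable def areaL : ℍ[ℝ] →L[ℝ] E4 :=
  (Quaternion.linearIsometryEquivTuple.toContinuousLinearEquiv : ℍ[ℝ] →L[ℝ] E4)

private lemma areaL_apply (q : ℍ[ℝ]) : areaL q = Quaternion.linearIsometryEquivTuple q := rfl

/-- the cone map -/
private noncomputable def areaG (f : E3 → ℍ[ℝ]) (v : E4) : E4 := areaL (v 0 • f (areaTl v))

private noncomputable def areaG' (f : E3 → ℍ[ℝ]) (v : E4) : E4 →L[ℝ] E4 :=
  areaL ∘L (v 0 • (fderiv ℝ f (areaTl v) ∘L areaTl) +
    (EuclideanSpace.proj (𝕜 := ℝ) (0 : Fin 4) : E4 →L[ℝ] ℝ).smulRight (f (areaTl v)))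

private lemma areaG_deriv (f : E3 → ℍ[ℝ]) (hf : ContDiff ℝ 1 f) (v : E4) :
    HasFDerivAt (areaG f) (areaG' f v) v := by
  have h1 : HasFDerivAt (fun w : E4 => f (areaTl w)) (fderiv ℝ f (areaTl v) ∘L areaTl) v := by
    have h := ((hf.differentiable (by norm_num)) (areaTl v)).hasFDerivAt
    exact h.comp v areaTl.hasFDerivAt
  have h0 : HasFDerivAt (fun w : E4 => w 0) (EuclideanSpace.proj (𝕜 := ℝ) (0 : Fin 4) : E4 →L[ℝ] ℝ) v :=
    (EuclideanSpace.proj (𝕜 := ℝ) (0 : Fin 4) : E4 →L[ℝ] ℝ).hasFDerivAt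
  exact areaL.hasFDerivAt.comp v (h0.smul h1)

private lemma areaTl_zero : areaTl (EuclideanSpace.single (0 : Fin 4) (1 : ℝ)) = 0 := by
  ext i
  rw [areaTl_apply]
  simp

private lemma areaTl_succ (j : Fin 3) : areaTl (EuclideanSpace.single j.succ (1 : ℝ)) = e j := by
  ext i
  rw [areaTl_apply]
  simp [e]

private lemma areaG'_zero (f : E3 → ℍ[ℝ]) (v : E4) :
    areaG' f v (EuclideanSpace.single (0 : Fin 4) (1 : ℝ)) = areaL (f (areaTl v)) := by
  simp [areaG', areaTl_zero]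

private lemma areaG'_succ (f : E3 → ℍ[ℝ]) (v : E4) (j : Fin 3) :
    areaG' f v (EuclideanSpace.single j.succ (1 : ℝ)) = areaL (v 0 • fderiv ℝ f (areaTl v) (e j)) := by
  simp [areaG', areaTl_succ]

private lemma areaG'_det (f : E3 → ℍ[ℝ]) (v : E4) :
    (areaG' f v).det = v 0 ^ 3 * jac f (areaTl v) := by
  rw [ContinuousLinearMap.det, ← LinearMap.det_toMatrix (EuclideanSpace.basisFun (Fin 4) ℝ).toBasis]
  rw [← Matrix.det_transpose]
  have key : (LinearMap.toMatrix (EuclideanSpace.basisFun (Fin 4) ℝ).toBasis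
      (EuclideanSpace.basisFun (Fin 4) ℝ).toBasis (areaG' f v : E4 →ₗ[ℝ] E4)).transpose =
      Matrix.of (fun i j => (![1, v 0, v 0, v 0] : Fin 4 → ℝ) i *
        (!![(f (areaTl v)).re, (f (areaTl v)).imI, (f (areaTl v)).imJ, (f (areaTl v)).imK;
          (fderiv ℝ f (areaTl v) (e 0)).re, (fderiv ℝ f (areaTl v) (e 0)).imI, (fderiv ℝ f (areaTl v) (e 0)).imJ, (fderiv ℝ f (areaTl v) (e 0)).imK;
          (fderiv ℝ f (areaTl v) (e 1)).re, (fderiv ℝ f (areaTl v) (e 1)).imI, (fderiv ℝ f (areaTl v) (e 1)).imJ, (fderiv ℝ f (areaTl v) (e 1)).imK;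
          (fderiv ℝ f (areaTl v) (e 2)).re, (fderiv ℝ f (areaTl v) (e 2)).imI, (fderiv ℝ f (areaTl v) (e 2)).imJ, (fderiv ℝ f (areaTl v) (e 2)).imK] : Matrix (Fin 4) (Fin 4) ℝ) i j) := by
    ext i j
    rw [Matrix.transpose_apply, LinearMap.toMatrix_apply]
    rw [OrthonormalBasis.coe_toBasis, EuclideanSpace.basisFun_apply]
    have hr : ∀ w : E4, ((EuclideanSpace.basisFun (Fin 4) ℝ).toBasis.repr w) j = w j := by
      intro w
      simp
    rw [hr]
    refine Fin.cases ?_ (fun i => ?_) i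
    · rw [ContinuousLinearMap.coe_coe, areaG'_zero, areaL_apply]
      fin_cases j <;> simp [Quaternion.linearIsometryEquivTuple_apply]
    · rw [ContinuousLinearMap.coe_coe, areaG'_succ, areaL_apply]
      fin_cases i <;> fin_cases j <;> simp [Quaternion.linearIsometryEquivTuple_apply]
  rw [key, Matrix.det_mul_column]
  rw [jac, det4]
  congr 1
  simp [Fin.prod_univ_succ]
  ring

/-- the domain of the cone map -/
private def areaS (f : E3 → ℍ[ℝ]) (p : ℍ[ℝ]) (r : ℝ) : Set E4 :=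
  {v | (0 < v 0 ∧ v 0 < 1) ∧ areaTl v ∈ cube ∧ ‖f (areaTl v) - p‖ < r}

private lemma cube_closed : IsClosed cube := by
  have : cube = ⋂ i : Fin 3, {x : E3 | x i ∈ Set.Icc (0 : ℝ) 1} := by
    ext x
    simp [cube]
  rw [this]
  refine isClosed_iInter fun i => ?_
  exact isClosed_Icc.preimage (PiLp.continuous_apply 2 _ i)

private lemma areaS_meas (f : E3 → ℍ[ℝ]) (hf : ContDiff ℝ 1 f) (p : ℍ[ℝ]) (r : ℝ) :
    MeasurableSet (areaS f p r) := by
  have hc0 : Continuous fun v : E4 => v 0 := PiLp.continuous_apply 2 _ 0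
  have h1 : MeasurableSet {v : E4 | 0 < v 0 ∧ v 0 < 1} :=
    (isOpen_Ioo.preimage hc0).measurableSet
  have h2 : MeasurableSet {v : E4 | areaTl v ∈ cube} :=
    (cube_closed.preimage areaTl.continuous).measurableSet
  have h3 : MeasurableSet {v : E4 | ‖f (areaTl v) - p‖ < r} := by
    refine (isOpen_lt ?_ continuous_const).measurableSet
    exact ((hf.continuous.comp areaTl.continuous).sub continuous_const).norm
  exact h1.inter (h2.inter h3)

private lemma areaS_vol (f : E3 → ℍ[ℝ]) (p : ℍ[ℝ]) (r : ℝ) : volume (areaS f p r) ≤ 1 := by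
  have hsub : areaS f p r ⊆ (@WithLp.ofLp 2 (Fin 4 → ℝ)) ⁻¹' (Set.Icc (0 : Fin 4 → ℝ) 1) := by
    intro v hv
    obtain ⟨⟨h0, h1⟩, h2, -⟩ := hv
    have h : ∀ i : Fin 4, 0 ≤ v i ∧ v i ≤ 1 := by
      intro i
      refine Fin.cases ⟨h0.le, h1.le⟩ (fun i => ?_) i
      have := h2 i
      rw [areaTl_apply] at this
      exact this
    exact ⟨fun i => (h i).1, fun i => (h i).2⟩
  refine (measure_mono hsub).trans ?_
  rw [(PiLp.volume_preserving_ofLp (Fin 4)).measure_preimage measurableSet_Icc.nullMeasurableSet]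
  rw [Real.volume_Icc_pi]
  simp

private lemma cone_subset (f : E3 → ℍ[ℝ]) (p : ℍ[ℝ]) (r : ℝ)
    (hcov : ∀ q : ℍ[ℝ], ‖q‖ = 1 → ‖q - p‖ < r → ∃ x ∈ cube, f x = q) :
    Quaternion.linearIsometryEquivTuple '' cone p r ⊆ areaG f '' areaS f p r := by
  rintro _ ⟨v, ⟨hv0, hv1, hvr⟩, rfl⟩
  have hn : 0 < ‖v‖ := norm_pos_iff.mpr hv0
  obtain ⟨x, hx, hfx⟩ := hcov ((‖v‖⁻¹ : ℝ) • v) (by
    rw [norm_smul, norm_inv, norm_norm, inv_mul_cancel₀ hn.ne']) hvr
  let w : E4 := WithLp.toLp 2 (Fin.cons ‖v‖ (fun i : Fin 3 => x i) : Fin 4 → ℝ)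
  have hw0 : w 0 = ‖v‖ := rfl
  have hwt : areaTl w = x := by
    ext i
    rw [areaTl_apply]
    rfl
  refine ⟨w, ⟨⟨?_, ?_⟩, ?_, ?_⟩, ?_⟩
  · rw [hw0]; exact hn
  · rw [hw0]; exact hv1
  · rw [hwt]; exact hx
  · rw [hwt, hfx]; exact hvr
  · rw [areaG, hw0, hwt, hfx, areaL_apply, smul_smul, mul_inv_cancel₀ hn.ne', one_smul]

/-- Row AR. Area inequality.  Let `f : R^3 -> S^3` be `C^1`, let it cover the ball of radius `r` around `p` in `S^3` by points of
the closed unit cube, and let `|jac f| <= δ` at all points of the cube which `f` maps into this ball.  Then the cone over the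
ball has 4-volume at most `δ`.
The 4-volume is taken on `EuclideanSpace ℝ (Fin 4)` through `Quaternion.linearIsometryEquivTuple`.
Proof.  `G v = v 0 • f (v 1, v 2, v 3)` from `EuclideanSpace ℝ (Fin 4)` to itself (through the isometry); on
`s = {v | v 0 ∈ Ioo 0 1, (v 1, v 2, v 3) ∈ cube, ‖f (..) - p‖ < r}` (measurable: open in closed) it has the derivative
`w ↦ w 0 • f + v 0 • f' (w 1, w 2, w 3)`, whose determinant in the standard basis is `± v 0 ^ 3 * jac f`, so `|det| <= δ`; the image of `s`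
contains the cone (`v = ‖v‖ • (v/‖v‖)`).  `MeasureTheory.addHaar_image_le_lintegral_abs_det_fderiv` gives
`vol cone <= ∫⁻_s ofReal |det| <= δ * vol s`, and `s` is contained in the unit cube of volume 1. -/
theorem area (f : E3 → ℍ[ℝ]) (hf : ContDiff ℝ 1 f) (hn : ∀ x, ‖f x‖ = 1) (p : ℍ[ℝ]) (r δ : ℝ) (hδ : 0 ≤ δ)
    (hcov : ∀ q : ℍ[ℝ], ‖q‖ = 1 → ‖q - p‖ < r → ∃ x ∈ cube, f x = q)
    (hJ : ∀ x ∈ cube, ‖f x - p‖ < r → |jac f x| ≤ δ) :
    volume (Quaternion.linearIsometryEquivTuple '' cone p r) ≤ ENNReal.ofReal δ := by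
  refine (measure_mono (cone_subset f p r hcov)).trans ?_
  have h1 := addHaar_image_le_lintegral_abs_det_fderiv (volume : Measure E4) (areaS_meas f hf p r)
    (f := areaG f) (f' := areaG' f) (fun v _ => (areaG_deriv f hf v).hasFDerivWithinAt)
  refine h1.trans ?_
  have h2 : ∫⁻ v in areaS f p r, ENNReal.ofReal |(areaG' f v).det| ≤
      ∫⁻ _ in areaS f p r, ENNReal.ofReal δ := by
    refine setLIntegral_mono' (areaS_meas f hf p r) fun v hv => ?_
    refine ENNReal.ofReal_le_ofReal ?_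
    obtain ⟨⟨h0, h1⟩, h2, h3⟩ := hv
    rw [areaG'_det, abs_mul, abs_of_nonneg (pow_nonneg h0.le 3)]
    calc v 0 ^ 3 * |jac f (areaTl v)| ≤ 1 * δ :=
          mul_le_mul (pow_le_one₀ h0.le h1.le) (hJ _ h2 h3) (abs_nonneg _) zero_le_one
      _ = δ := one_mul δ
  refine h2.trans ?_
  rw [setLIntegral_const]
  calc ENNReal.ofReal δ * volume (areaS f p r) ≤ ENNReal.ofReal δ * 1 := by
        gcongr
        exact areaS_vol f p r
    _ = ENNReal.ofReal δ := mul_one _

end Sam094185
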