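import Pool.Agent.Lib.MP_094185_gt.Defs

open scoped Quaternion

namespace Sam094185

private theorem calc_inner_eq (a b : ℍ[ℝ]) : inner ℝ a b = (star a * b).re := by
  rw [Quaternion.inner_def]
  simp [Quaternion.re_mul]

private theorem calc_star_mul_self (a : ℍ[ℝ]) (ha : ‖a‖ = 1) : star a * a = 1 := by
  rw [Quaternion.star_mul_self, Quaternion.normSq_eq_norm_mul_self, ha]
  simp

private theorem calc_self_mul_star (a : ℍ[ℝ]) (ha : ‖a‖ = 1) : a * star a = 1 := by
  rw [Quaternion.self_mul_star, Quaternion.normSq_eq_norm_mul_self, ha]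
  simp

/-- a map with values in the unit sphere has derivative orthogonal to the value -/
private theorem calc_orth {E : Type*} [NormedAddCommGroup E] [NormedSpace ℝ E] (F : E → ℍ[ℝ])
    (hF : Differentiable ℝ F) (hn : ∀ x, ‖F x‖ = 1) (x u : E) :
    inner ℝ (F x) (fderiv ℝ F x u) = 0 := by
  have h1 : HasFDerivAt (fun y => inner ℝ (F y) (F y)) _ x := (hF x).hasFDerivAt.inner ℝ (hF x).hasFDerivAt
  have h2 : (fun y => inner ℝ (F y) (F y)) = fun _ => (1 : ℝ) := by
    funext y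
    rw [real_inner_self_eq_norm_sq, hn]
    norm_num
  rw [h2] at h1
  have h3 := h1.unique (hasFDerivAt_const (1 : ℝ) x)
  have h4 := congrArg (fun L => L u) h3
  simp [fderivInnerCLM_apply] at h4
  have h5 : inner ℝ (fderiv ℝ F x u) (F x) = inner ℝ (F x) (fderiv ℝ F x u) := real_inner_comm _ _
  linarith

/-- Row CA. `p̄ df(u)` is purely imaginary because `‖f‖ = 1`. -/
theorem re_fderiv (f : E3 → ℍ[ℝ]) (hf : ContDiff ℝ 1 f) (hn : ∀ x, ‖f x‖ = 1) (x u : E3) :
    (star (f x) * fderiv ℝ f x u).re = 0 := by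
  rw [← calc_inner_eq]
  exact calc_orth f (hf.differentiable one_ne_zero) hn x u

/-- the star as a continuous linear map -/
private noncomputable def calcStar : ℍ[ℝ] →L[ℝ] ℍ[ℝ] :=
  LinearMap.toContinuousLinearMap
    { toFun := fun a => star a
      map_add' := fun a b => star_add a b
      map_smul' := fun c a => by
        ext <;> simp }

private theorem calcStar_apply (a : ℍ[ℝ]) : calcStar a = star a := rfl

private theorem calc_star {E : Type*} [NormedAddCommGroup E] [NormedSpace ℝ E] (F : E → ℍ[ℝ]) (F' : E →L[ℝ] ℍ[ℝ])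
    (x : E) (h : HasFDerivAt F F' x) :
    HasFDerivAt (fun y => star (F y)) (calcStar ∘L F') x :=
  HasFDerivAt.comp (g := fun a => calcStar a) x calcStar.hasFDerivAt h

private theorem calc_samD (f g : E3 → ℍ[ℝ]) (hf : ContDiff ℝ 1 f) (hg : ContDiff ℝ 1 g) (x y : E3) :
    ∃ L : E6 →L[ℝ] ℍ[ℝ], HasFDerivAt (samelson f g) L (WithLp.toLp 2 (x, y)) ∧ ∀ u v : E3,
    L (WithLp.toLp 2 (u, v)) =
      fderiv ℝ f x u * g y * star (f x) * star (g y) + f x * fderiv ℝ g y v * star (f x) * star (g y)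
      + f x * g y * star (fderiv ℝ f x u) * star (g y) + f x * g y * star (f x) * star (fderiv ℝ g y v) := by
  have hdf : HasFDerivAt f (fderiv ℝ f x) x := (hf.differentiable one_ne_zero x).hasFDerivAt
  have hdg : HasFDerivAt g (fderiv ℝ g y) y := (hg.differentiable one_ne_zero y).hasFDerivAt
  have h1 : HasFDerivAt (fun z : E6 => f z.fst) ((fderiv ℝ f x) ∘L (WithLp.fstL 2 ℝ E3 E3)) (WithLp.toLp 2 (x, y)) := by
    exact HasFDerivAt.comp (g := f) (f := fun z : E6 => z.fst) (WithLp.toLp 2 (x, y)) hdf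
      (WithLp.fstL 2 ℝ E3 E3).hasFDerivAt
  have h2 : HasFDerivAt (fun z : E6 => g z.snd) ((fderiv ℝ g y) ∘L (WithLp.sndL 2 ℝ E3 E3)) (WithLp.toLp 2 (x, y)) := by
    exact HasFDerivAt.comp (g := g) (f := fun z : E6 => z.snd) (WithLp.toLp 2 (x, y)) hdg
      (WithLp.sndL 2 ℝ E3 E3).hasFDerivAt
  have h3 := ((h1.mul' h2).mul' (calc_star _ _ _ h1)).mul' (calc_star _ _ _ h2)
  refine ⟨_, h3, ?_⟩
  intro u v
  simp [calcStar_apply]
  noncomm_ring

private theorem calc_conj (p d : ℍ[ℝ]) (hp : ‖p‖ = 1) (hd : (star p * d).re = 0) :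
    p * (star p * d) = d ∧ star d = -((star p * d) * star p) := by
  have h1 : p * (star p * d) = d := by
    rw [← mul_assoc, calc_self_mul_star p hp, one_mul]
  refine ⟨h1, ?_⟩
  have h2 : star (star p * d) = -(star p * d) := by
    rw [Quaternion.star_eq_neg]
    exact hd
  calc star d = star (p * (star p * d)) := by rw [h1]
    _ = star (star p * d) * star p := by rw [star_mul]
    _ = -((star p * d) * star p) := by rw [h2, neg_mul]

/-- Row CB. derivative of the commutator in the first variable, `a = p̄ df(u)`, `p = f x`, `q = g y` -/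
theorem fderiv_fst (f g : E3 → ℍ[ℝ]) (hf : ContDiff ℝ 1 f) (hg : ContDiff ℝ 1 g) (hn : ∀ x, ‖f x‖ = 1)
    (hm : ∀ x, ‖g x‖ = 1) (x y u : E3) :
    fderiv ℝ (samelson f g) (WithLp.toLp 2 (x, y)) (WithLp.toLp 2 (u, 0)) =
      f x * (star (f x) * fderiv ℝ f x u) * g y * star (f x) * star (g y) -
        f x * g y * (star (f x) * fderiv ℝ f x u) * star (f x) * star (g y) := by
  obtain ⟨L, hL, hLuv⟩ := calc_samD f g hf hg x y
  rw [hL.fderiv, hLuv]
  obtain ⟨h1, h2⟩ := calc_conj (f x) (fderiv ℝ f x u) (hn x) (re_fderiv f hf hn x u)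
  rw [h1, h2]
  simp
  noncomm_ring

/-- Row CC. derivative in the second variable, `b = q̄ dg(v)` -/
theorem fderiv_snd (f g : E3 → ℍ[ℝ]) (hf : ContDiff ℝ 1 f) (hg : ContDiff ℝ 1 g) (hn : ∀ x, ‖f x‖ = 1)
    (hm : ∀ x, ‖g x‖ = 1) (x y v : E3) :
    fderiv ℝ (samelson f g) (WithLp.toLp 2 (x, y)) (WithLp.toLp 2 (0, v)) =
      f x * g y * (star (g y) * fderiv ℝ g y v) * star (f x) * star (g y) -
        f x * g y * star (f x) * (star (g y) * fderiv ℝ g y v) * star (g y) := by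
  obtain ⟨L, hL, hLuv⟩ := calc_samD f g hf hg x y
  rw [hL.fderiv, hLuv]
  obtain ⟨h1, h2⟩ := calc_conj (g y) (fderiv ℝ g y v) (hm y) (re_fderiv g hg hm y v)
  have h3 : f x * g y * (star (g y) * fderiv ℝ g y v) = f x * fderiv ℝ g y v := by
    rw [mul_assoc (f x), h1]
  rw [h3, h2]
  simp
  noncomm_ring

private theorem calc_samelson_norm (f g : E3 → ℍ[ℝ]) (hn : ∀ x, ‖f x‖ = 1) (hm : ∀ x, ‖g x‖ = 1) (z : E6) :
    ‖samelson f g z‖ = 1 := by
  unfold samelson
  rw [norm_mul, norm_mul, norm_mul, norm_star, norm_star, hn, hm]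
  norm_num

/-- Row CD. the values of the derivative are orthogonal to the value, because `‖samelson f g‖ = 1` -/
theorem inner_fderiv (f g : E3 → ℍ[ℝ]) (hf : ContDiff ℝ 1 f) (hg : ContDiff ℝ 1 g) (hn : ∀ x, ‖f x‖ = 1)
    (hm : ∀ x, ‖g x‖ = 1) (z w : E6) :
    inner ℝ (samelson f g z) (fderiv ℝ (samelson f g) z w) = 0 := by
  refine calc_orth (samelson f g) ?_ (calc_samelson_norm f g hn hm) z w
  intro z
  obtain ⟨L, hL, -⟩ := calc_samD f g hf hg z.fst z.snd
  exact hL.differentiableAt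

end Sam094185
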