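import Pool.Agent.Lib.MP_094185_gt.Defs

open scoped Quaternion
open MeasureTheory

namespace Sam094185

/-- Row CN. The cone has positive volume: it is open (`v ↦ ‖v‖⁻¹ • v` is continuous on `v ≠ 0`) and contains `(1/2) • p`. -/
theorem cone_pos (p : ℍ[ℝ]) (hp : ‖p‖ = 1) (r : ℝ) (hr : 0 < r) :
    0 < volume (Quaternion.linearIsometryEquivTuple '' cone p r) := by
  have hopen : IsOpen (cone p r) := by
    have h0 : IsOpen ({0}ᶜ : Set ℍ[ℝ]) := isOpen_compl_singleton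
    have hc : ContinuousOn (fun v : ℍ[ℝ] => ‖(‖v‖⁻¹ : ℝ) • v - p‖) ({0}ᶜ : Set ℍ[ℝ]) := by
      have h4 : ContinuousOn (fun v : ℍ[ℝ] => ‖v‖⁻¹) ({0}ᶜ : Set ℍ[ℝ]) :=
        continuous_norm.continuousOn.inv₀ fun v hv => norm_ne_zero_iff.2 hv
      have h5 : ContinuousOn (fun v : ℍ[ℝ] => (‖v‖⁻¹ : ℝ) • v) ({0}ᶜ : Set ℍ[ℝ]) :=
        h4.smul continuousOn_id
      exact (h5.sub continuousOn_const).norm
    have h1 := hc.isOpen_inter_preimage h0 (isOpen_Iio (a := r))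
    have h2 : IsOpen {v : ℍ[ℝ] | ‖v‖ < 1} := isOpen_lt continuous_norm continuous_const
    have h3 : cone p r = {v : ℍ[ℝ] | ‖v‖ < 1} ∩
        (({0}ᶜ : Set ℍ[ℝ]) ∩ (fun v : ℍ[ℝ] => ‖(‖v‖⁻¹ : ℝ) • v - p‖) ⁻¹' Set.Iio r) := by
      ext v
      constructor
      · rintro ⟨h4, h5, h6⟩
        exact ⟨h5, h4, h6⟩
      · rintro ⟨h5, h4, h6⟩
        exact ⟨h4, h5, h6⟩
    rw [h3]
    exact h2.inter h1
  have hmem : (1 / 2 : ℝ) • p ∈ cone p r := by
    have hp0 : p ≠ 0 := by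
      rintro rfl
      rw [norm_zero] at hp
      exact zero_ne_one hp
    have hn : ‖(1 / 2 : ℝ) • p‖ = 1 / 2 := by
      rw [norm_smul, hp, mul_one, Real.norm_of_nonneg (by norm_num)]
    refine ⟨smul_ne_zero (by norm_num) hp0, ?_, ?_⟩
    · rw [hn]
      norm_num
    · rw [hn, smul_smul]
      norm_num
      exact hr
  have h1 : IsOpen (Quaternion.linearIsometryEquivTuple '' cone p r) :=
    Quaternion.linearIsometryEquivTuple.toHomeomorph.isOpenMap _ hopen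
  exact h1.measure_pos volume ⟨_, _, hmem, rfl⟩

end Sam094185
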