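import Mathlib

/-!
# MP_094185_gt: the 3-dilation of the Samelson representatives of classes in pi_6(S^3)

`S^3` is the group of unit quaternions, a pointed map of the cube `I^3` is a `C^1` map `f : R^3 -> S^3` which is `1`
outside the open unit cube.  `samelson f g (x, y) = f x * g y * (f x)⁻¹ * (g y)⁻¹`.
-/

open scoped Quaternion

namespace Sam094185

abbrev E3 := EuclideanSpace ℝ (Fin 3)

/-- `R^6 = R^3 x R^3` with its Euclidean structure. -/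
abbrev E6 := WithLp 2 (E3 × E3)

/-- the 3-dilation of a linear map: the product of its three largest singular values -/
noncomputable def dil3 (T : E6 →L[ℝ] ℍ[ℝ]) : ℝ :=
  (T : E6 →ₗ[ℝ] ℍ[ℝ]).singularValues 0 * (T : E6 →ₗ[ℝ] ℍ[ℝ]).singularValues 1 *
    (T : E6 →ₗ[ℝ] ℍ[ℝ]).singularValues 2

/-- a pointed `C^1` map `(I^3, boundary) -> (S^3, 1)`, extended by `1` -/
def CubeMap (f : E3 → ℍ[ℝ]) : Prop :=
  ContDiff ℝ 1 f ∧ (∀ x, ‖f x‖ = 1) ∧ ∀ x, (∃ i, x i ∉ Set.Ioo (0 : ℝ) 1) → f x = 1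

/-- the Samelson product (commutator) of two maps -/
noncomputable def samelson (f g : E3 → ℍ[ℝ]) (z : E6) : ℍ[ℝ] :=
  f z.fst * g z.snd * star (f z.fst) * star (g z.snd)

/-- `F : (I^6, boundary) -> (S^3, 1)` is null-homotopic relative to the boundary of the cube -/
def Null6 (F : E6 → ℍ[ℝ]) : Prop :=
  ∃ H : ℝ → E6 → ℍ[ℝ], Continuous (fun w : ℝ × E6 => H w.1 w.2) ∧ (∀ t z, ‖H t z‖ = 1) ∧
    (∀ z, H 0 z = F z) ∧ (∀ z, H 1 z = 1) ∧
    ∀ t, ∀ z : E6, ((∃ i, z.fst i ∉ Set.Ioo (0 : ℝ) 1) ∨ (∃ i, z.snd i ∉ Set.Ioo (0 : ℝ) 1)) → H t z = 1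

/-- standard basis of R^3 -/
noncomputable def e (i : Fin 3) : E3 := EuclideanSpace.single i 1

/-- determinant of four quaternions -/
noncomputable def det4 (a b c d : ℍ[ℝ]) : ℝ :=
  Matrix.det !![a.re, a.imI, a.imJ, a.imK; b.re, b.imI, b.imJ, b.imK;
    c.re, c.imI, c.imJ, c.imK; d.re, d.imI, d.imJ, d.imK]

/-- determinant of the imaginary parts of three quaternions -/
noncomputable def det3 (b c d : ℍ[ℝ]) : ℝ :=
  Matrix.det !![b.imI, b.imJ, b.imK; c.imI, c.imJ, c.imK; d.imI, d.imJ, d.imK]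

/-- scalar product of the imaginary parts -/
noncomputable def dot (a b : ℍ[ℝ]) : ℝ := a.imI * b.imI + a.imJ * b.imJ + a.imK * b.imK

/-- Jacobian (with sign) of a map `R^3 -> S^3` -/
noncomputable def jac (f : E3 → ℍ[ℝ]) (x : E3) : ℝ :=
  det4 (f x) (fderiv ℝ f x (e 0)) (fderiv ℝ f x (e 1)) (fderiv ℝ f x (e 2))

/-- the closed unit cube -/
def cube : Set E3 := {x | ∀ i, x i ∈ Set.Icc (0 : ℝ) 1}

/-- the truncated cone over the ball of radius `r` around `p` in `S^3` -/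
def cone (p : ℍ[ℝ]) (r : ℝ) : Set ℍ[ℝ] := {v | v ≠ 0 ∧ ‖v‖ < 1 ∧ ‖(‖v‖⁻¹ : ℝ) • v - p‖ < r}

/-- `w i j = q_j m_i q_j⁻¹ - m_i` with `m_i` the imaginary part of `p_i` -/
noncomputable def wvec (p q : ℍ[ℝ]) : ℍ[ℝ] := q * p * star q - p

end Sam094185
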