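import Pool.Agent.Lib.MP_094185_gt.GenPos

open scoped Quaternion

namespace Sam094185

private theorem GC_det3 {X : Type*} [TopologicalSpace X] {f g h : X → ℍ[ℝ]} (hf : Continuous f)
    (hg : Continuous g) (hh : Continuous h) : Continuous fun x => det3 (f x) (g x) (h x) := by
  have e : (fun x => det3 (f x) (g x) (h x)) = fun x =>
      (f x).imI * (g x).imJ * (h x).imK - (f x).imI * (g x).imK * (h x).imJ
      - (f x).imJ * (g x).imI * (h x).imK + (f x).imJ * (g x).imK * (h x).imI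
      + (f x).imK * (g x).imI * (h x).imJ - (f x).imK * (g x).imJ * (h x).imI := by
    funext x
    simp [det3, Matrix.det_fin_three]
  rw [e]
  have a1 := Quaternion.continuous_imI.comp hf
  have a2 := Quaternion.continuous_imJ.comp hf
  have a3 := Quaternion.continuous_imK.comp hf
  have b1 := Quaternion.continuous_imI.comp hg
  have b2 := Quaternion.continuous_imJ.comp hg
  have b3 := Quaternion.continuous_imK.comp hg
  have c1 := Quaternion.continuous_imI.comp hh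
  have c2 := Quaternion.continuous_imJ.comp hh
  have c3 := Quaternion.continuous_imK.comp hh
  exact ((((((a1.mul b2).mul c3).sub ((a1.mul b3).mul c2)).sub ((a2.mul b1).mul c3)).add
    ((a2.mul b3).mul c1)).add ((a3.mul b1).mul c2)).sub ((a3.mul b2).mul c1)

private theorem GC_key {X ι : Type*} [PseudoMetricSpace X] [Finite ι] [Nonempty ι]
    (F : ι → X → ℝ) (x₀ : X) (hc : ∀ i, Continuous (F i)) (h0 : ∀ i, 0 < F i x₀) :
    ∃ r d : ℝ, 0 < r ∧ 0 < d ∧ ∀ x, dist x x₀ < r → ∀ i, d ≤ F i x := by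
  obtain ⟨i₀, hi₀⟩ := Finite.exists_min fun i => F i x₀
  have h1 : ∀ᶠ x in nhds x₀, ∀ i, F i₀ x₀ / 2 < F i x := by
    rw [Filter.eventually_all]
    intro i
    refine (hc i).continuousAt.eventually (lt_mem_nhds ?_)
    have := hi₀ i
    have := h0 i₀
    linarith
  obtain ⟨r, hr, h2⟩ := Metric.eventually_nhds_iff.1 h1
  exact ⟨r, F i₀ x₀ / 2, hr, half_pos (h0 i₀), fun x hx i => (h2 hx i).le⟩

/-- Row GC. By continuity the determinants stay away from zero near `P0`, `Q0`.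
Proof.  `Φ (P, Q) = ` minimum (`Finset.inf'` over the finitely many triples of distinct indices) of the absolute values is continuous
and positive at `(P0, Q0)`; so it is `> Φ (P0, Q0) / 2` in a neighbourhood (`Metric.continuous_iff`, the metric on the product
`(Fin 5 → ℍ) × (Fin 4 → ℍ)` is the sup metric). -/
theorem genpos : ∃ r d : ℝ, 0 < r ∧ 0 < d ∧ ∀ P : Fin 5 → ℍ[ℝ], ∀ Q : Fin 4 → ℍ[ℝ],
    (∀ i, ‖P i - P0 i‖ < r) → (∀ j, ‖Q j - Q0 j‖ < r) →
    (∀ i j k : Fin 5, i ≠ j → i ≠ k → j ≠ k → d ≤ |det3 (P i) (P j) (P k)|) ∧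
    (∀ i : Fin 5, ∀ j k l : Fin 4, j ≠ k → j ≠ l → k ≠ l →
      d ≤ |det3 (wvec (P i) (Q j)) (wvec (P i) (Q k)) (wvec (P i) (Q l))|) := by
  classical
  let X := (Fin 5 → ℍ[ℝ]) × (Fin 4 → ℍ[ℝ])
  let I₁ := {t : Fin 5 × Fin 5 × Fin 5 // t.1 ≠ t.2.1 ∧ t.1 ≠ t.2.2 ∧ t.2.1 ≠ t.2.2}
  let I₂ := {t : Fin 5 × Fin 4 × Fin 4 × Fin 4 //
    t.2.1 ≠ t.2.2.1 ∧ t.2.1 ≠ t.2.2.2 ∧ t.2.2.1 ≠ t.2.2.2}
  let F : I₁ ⊕ I₂ → X → ℝ := fun t x => match t with
    | Sum.inl t => |det3 (x.1 t.1.1) (x.1 t.1.2.1) (x.1 t.1.2.2)|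
    | Sum.inr t => |det3 (wvec (x.1 t.1.1) (x.2 t.1.2.1)) (wvec (x.1 t.1.1) (x.2 t.1.2.2.1))
        (wvec (x.1 t.1.1) (x.2 t.1.2.2.2))|
  have hP : ∀ i, Continuous fun x : X => x.1 i := fun i =>
    (continuous_apply i).comp continuous_fst
  have hQ : ∀ j, Continuous fun x : X => x.2 j := fun j =>
    (continuous_apply j).comp continuous_snd
  have hw : ∀ i j, Continuous fun x : X => wvec (x.1 i) (x.2 j) := fun i j =>
    (((hQ j).mul (hP i)).mul (continuous_star.comp (hQ j))).sub (hP i)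
  have hne : Nonempty (I₁ ⊕ I₂) := ⟨Sum.inl ⟨(0, 1, 2), by decide, by decide, by decide⟩⟩
  obtain ⟨r, d, hr, hd, h⟩ := GC_key F ((P0, Q0) : X) (by
    rintro (t | t)
    · exact (GC_det3 (hP _) (hP _) (hP _)).abs
    · exact (GC_det3 (hw _ _) (hw _ _) (hw _ _)).abs) (by
    rintro (t | t)
    · exact abs_pos.2 (detP0 _ _ _ t.2.1 t.2.2.1 t.2.2.2)
    · exact abs_pos.2 (detW0 _ _ _ _ t.2.1 t.2.2.1 t.2.2.2))
  refine ⟨r, d, hr, hd, fun P Q h1 h2 => ?_⟩
  have h3 : dist ((P, Q) : X) ((P0, Q0) : X) < r := by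
    rw [Prod.dist_eq, max_lt_iff]
    refine ⟨(dist_pi_lt_iff hr).2 fun i => ?_, (dist_pi_lt_iff hr).2 fun j => ?_⟩
    · rw [dist_eq_norm]; exact h1 i
    · rw [dist_eq_norm]; exact h2 j
  have h4 := h _ h3
  exact ⟨fun i j k a b c => h4 (Sum.inl ⟨(i, j, k), a, b, c⟩),
    fun i j k l a b c => h4 (Sum.inr ⟨(i, j, k, l), a, b, c⟩)⟩

end Sam094185
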