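import Pool.Agent.Lib.MP_094185_gt.Defs

open scoped Quaternion

namespace Sam094185

/-- five unit quaternions -/
noncomputable def P0 : Fin 5 → ℍ[ℝ] :=
  ![⟨1/3, -2/3, -2/3, 0⟩, ⟨0, 0, 1, 0⟩, ⟨0, -2/3, 2/3, 1/3⟩, ⟨0, 2/3, -1/3, 2/3⟩, ⟨0, 2/3, 2/3, 1/3⟩]

/-- four unit quaternions -/
noncomputable def Q0 : Fin 4 → ℍ[ℝ] :=
  ![⟨-2/3, 0, 1/3, -2/3⟩, ⟨0, 1/3, -2/3, -2/3⟩, ⟨-2/3, 0, 1/3, 2/3⟩, ⟨2/3, 1/3, 0, 2/3⟩]

private theorem genPos_norm {a : ℍ[ℝ]} (h : a.re ^ 2 + a.imI ^ 2 + a.imJ ^ 2 + a.imK ^ 2 = 1) :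
    ‖a‖ = 1 := by
  have h1 : Quaternion.normSq a = 1 := by rw [Quaternion.normSq_def']; exact h
  rw [Quaternion.normSq_eq_norm_mul_self] at h1
  nlinarith [norm_nonneg a]

theorem norm_P0 (i : Fin 5) : ‖P0 i‖ = 1 := by
  apply genPos_norm
  fin_cases i <;> simp [P0] <;> norm_num

theorem norm_Q0 (j : Fin 4) : ‖Q0 j‖ = 1 := by
  apply genPos_norm
  fin_cases j <;> simp [Q0] <;> norm_num

/-- the numerators of the imaginary parts of `P0` -/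
private def genPosP : Fin 5 → Fin 3 → ℤ :=
  ![![-2, -2, 0], ![0, 3, 0], ![-2, 2, 1], ![2, -1, 2], ![2, 2, 1]]

/-- the numerators of the imaginary parts of `wvec (P0 i) (Q0 j)` -/
private def genPosW : Fin 5 → Fin 4 → Fin 3 → ℤ :=
  ![![![36, 0, 0], ![40, 28, -8], ![4, 32, -16], ![32, 4, -16]],
    ![![-24, -24, -12], ![-12, -30, 24], ![24, -24, 12], ![-24, -30, 12]],
    ![![0, -36, -18], ![20, -4, 14], ![32, 4, -2], ![4, -40, -2]],
    ![![-20, 16, 8], ![-36, 18, -36], ![-36, 0, 0], ![0, 18, 0]],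
    ![![-40, -4, -2], ![-44, -20, -2], ![-8, -28, 14], ![-28, -8, 14]]]

private def genPosDet (a b c : Fin 3 → ℤ) : ℤ :=
  a 0 * b 1 * c 2 - a 0 * b 2 * c 1 - a 1 * b 0 * c 2 + a 1 * b 2 * c 0 + a 2 * b 0 * c 1 -
    a 2 * b 1 * c 0

private theorem genPos_det3 {x y z : ℍ[ℝ]} {a b c : Fin 3 → ℤ} {n : ℝ} (hn : n ≠ 0)
    (hx : x.imI = a 0 / n ∧ x.imJ = a 1 / n ∧ x.imK = a 2 / n)
    (hy : y.imI = b 0 / n ∧ y.imJ = b 1 / n ∧ y.imK = b 2 / n)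
    (hz : z.imI = c 0 / n ∧ z.imJ = c 1 / n ∧ z.imK = c 2 / n)
    (h : genPosDet a b c ≠ 0) : det3 x y z ≠ 0 := by
  have h1 : det3 x y z = ((genPosDet a b c : ℤ) : ℝ) / n ^ 3 := by
    unfold det3 genPosDet
    rw [Matrix.det_fin_three]
    simp only [Matrix.of_apply, Matrix.cons_val', Matrix.cons_val_zero, Matrix.cons_val_one,
      Matrix.cons_val_fin_one, Matrix.cons_val, hx.1, hx.2.1, hx.2.2, hy.1, hy.2.1, hy.2.2,
      hz.1, hz.2.1, hz.2.2]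
    push_cast
    field_simp
  rw [h1]
  exact div_ne_zero (by exact_mod_cast h) (pow_ne_zero 3 hn)

private theorem genPos_P (i : Fin 5) : (P0 i).imI = genPosP i 0 / 3 ∧
    (P0 i).imJ = genPosP i 1 / 3 ∧ (P0 i).imK = genPosP i 2 / 3 := by
  fin_cases i <;> simp [P0, genPosP]

private theorem genPos_W (i : Fin 5) (j : Fin 4) :
    (wvec (P0 i) (Q0 j)).imI = genPosW i j 0 / 27 ∧
    (wvec (P0 i) (Q0 j)).imJ = genPosW i j 1 / 27 ∧
    (wvec (P0 i) (Q0 j)).imK = genPosW i j 2 / 27 := by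
  unfold wvec
  refine ⟨?_, ?_, ?_⟩
  · fin_cases i <;> fin_cases j <;> simp [P0, Q0, genPosW] <;> norm_num
  · fin_cases i <;> fin_cases j <;> simp [P0, Q0, genPosW] <;> norm_num
  · fin_cases i <;> fin_cases j <;> simp [P0, Q0, genPosW] <;> norm_num

/-- Row GA. all the 10 determinants of the `P0 i` are nonzero (the smallest absolute value is 2/9) -/
theorem detP0 (i j k : Fin 5) (h1 : i ≠ j) (h2 : i ≠ k) (h3 : j ≠ k) : det3 (P0 i) (P0 j) (P0 k) ≠ 0 := by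
  refine genPos_det3 (n := 3) (by norm_num) (genPos_P i) (genPos_P j) (genPos_P k) ?_
  revert i j k
  decide

/-- Row GB. all the 20 determinants of the vectors `wvec (P0 i) (Q0 j)`, `i` fixed, are nonzero (at least 2/9 in absolute value) -/
theorem detW0 (i : Fin 5) (j k l : Fin 4) (h1 : j ≠ k) (h2 : j ≠ l) (h3 : k ≠ l) :
    det3 (wvec (P0 i) (Q0 j)) (wvec (P0 i) (Q0 k)) (wvec (P0 i) (Q0 l)) ≠ 0 := by
  refine genPos_det3 (n := 27) (by norm_num) (genPos_W i j) (genPos_W i k) (genPos_W i l) ?_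
  revert i j k l
  decide

end Sam094185
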