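import Pool.Agent.Lib.MP_094185_gt.Defs

open scoped Quaternion

namespace Sam094185

private theorem gram_inner (x y : ℍ[ℝ]) : (inner ℝ x y : ℝ) =
    x.re * y.re + x.imI * y.imI + x.imJ * y.imJ + x.imK * y.imK := by
  rw [Quaternion.inner_def]
  simp only [Quaternion.re_mul, Quaternion.re_star, Quaternion.imI_star, Quaternion.imJ_star,
    Quaternion.imK_star]
  ring

/-- Row GR. If `F` is a unit vector of `R^4` orthogonal to `a, b, c`, the Gram determinant of `a, b, c` is `det4 F a b c ^ 2`.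
(Gram matrix of the four vectors = M * Mᵀ has determinant `det4 ^ 2`, and is block diagonal with a block 1.) -/
theorem gram_eq (F a b c : ℍ[ℝ]) (hF : ‖F‖ = 1) (ha : inner ℝ F a = 0) (hb : inner ℝ F b = 0) (hc : inner ℝ F c = 0) :
    (Matrix.gram ℝ ![a, b, c]).det = det4 F a b c ^ 2 := by
  have hFF : (inner ℝ F F : ℝ) = 1 := by
    rw [real_inner_self_eq_norm_sq, hF, one_pow]
  rw [gram_inner] at ha hb hc hFF
  have h1 : det4 F a b c ^ 2 = (!![F.re, F.imI, F.imJ, F.imK; a.re, a.imI, a.imJ, a.imK;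
    b.re, b.imI, b.imJ, b.imK; c.re, c.imI, c.imJ, c.imK] *
    !![F.re, F.imI, F.imJ, F.imK; a.re, a.imI, a.imJ, a.imK;
    b.re, b.imI, b.imJ, b.imK; c.re, c.imI, c.imJ, c.imK].transpose).det := by
    rw [Matrix.det_mul, Matrix.det_transpose, sq]
    rfl
  have h2 : !![F.re, F.imI, F.imJ, F.imK; a.re, a.imI, a.imJ, a.imK;
    b.re, b.imI, b.imJ, b.imK; c.re, c.imI, c.imJ, c.imK] *
    !![F.re, F.imI, F.imJ, F.imK; a.re, a.imI, a.imJ, a.imK;
    b.re, b.imI, b.imJ, b.imK; c.re, c.imI, c.imJ, c.imK].transpose =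
    !![1, 0, 0, 0; 0, inner ℝ a a, inner ℝ a b, inner ℝ a c;
      0, inner ℝ b a, inner ℝ b b, inner ℝ b c;
      0, inner ℝ c a, inner ℝ c b, inner ℝ c c] := by
    ext i j
    fin_cases i <;> fin_cases j <;>
      simp only [Matrix.mul_apply, Matrix.transpose_apply, Fin.sum_univ_four, Fin.zero_eta,
        Fin.mk_one, Fin.reduceFinMk, Matrix.of_apply, Matrix.cons_val', Matrix.cons_val_zero,
        Matrix.cons_val_one, Matrix.cons_val, gram_inner] <;> linarith
  rw [h1, h2, Matrix.det_fin_three]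
  simp [Matrix.det_succ_row_zero, Fin.sum_univ_succ, Matrix.gram, Fin.succAbove]
  ring

end Sam094185
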