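import Pool.Agent.Lib.MP_094185_gt.Defs

open scoped Quaternion

namespace Sam094185

private theorem Lin_mul3 {a b c τ : ℝ} (ha : |a| < τ) (hb : |b| < τ) (hc : |c| < τ) :
    |a * b * c| < τ ^ 3 := by
  have hτ : 0 < τ := lt_of_le_of_lt (abs_nonneg a) ha
  rw [abs_mul, abs_mul]
  calc |a| * |b| * |c| ≤ τ * τ * |c| := by
        refine mul_le_mul_of_nonneg_right ?_ (abs_nonneg c)
        exact mul_le_mul ha.le hb.le (abs_nonneg b) hτ.le
    _ < τ * τ * τ := by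
        exact mul_lt_mul_of_pos_left hc (mul_pos hτ hτ)
    _ = τ ^ 3 := by ring

private theorem Lin_det (M : Matrix (Fin 3) (Fin 3) ℝ) (τ : ℝ) (h : ∀ i j, |M i j| < τ) :
    |M.det| < 6 * τ ^ 3 := by
  rw [Matrix.det_fin_three]
  have h1 := abs_lt.1 (Lin_mul3 (h 0 0) (h 1 1) (h 2 2))
  have h2 := abs_lt.1 (Lin_mul3 (h 0 0) (h 1 2) (h 2 1))
  have h3 := abs_lt.1 (Lin_mul3 (h 0 1) (h 1 0) (h 2 2))
  have h4 := abs_lt.1 (Lin_mul3 (h 0 1) (h 1 2) (h 2 0))
  have h5 := abs_lt.1 (Lin_mul3 (h 0 2) (h 1 0) (h 2 1))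
  have h6 := abs_lt.1 (Lin_mul3 (h 0 2) (h 1 1) (h 2 0))
  rw [abs_lt]
  constructor <;> linarith [h1.1, h1.2, h2.1, h2.2, h3.1, h3.2, h4.1, h4.2, h5.1, h5.2, h6.1, h6.2]

/-- Row LA. `A 0, A 1, A 2` imaginary quaternions with `|det3| >= δ`, `w 0, w 1, w 2` with `|det3| >= d`: some scalar product is not small.
Proof: the matrix `(A k · w i)` has determinant `det3 A * det3 w`; if all entries are `< τ` in absolute value, its determinant is
`< 6 τ^3`. -/
theorem lin1 (A w : Fin 3 → ℍ[ℝ]) (δ d τ : ℝ) (hδ : 0 < δ) (hd : 0 < d) (hτ : 0 < τ) (hA : δ ≤ |det3 (A 0) (A 1) (A 2)|)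
    (hw : d ≤ |det3 (w 0) (w 1) (w 2)|) (h : 6 * τ ^ 3 ≤ δ * d) : ∃ k i, τ ≤ |dot (A k) (w i)| := by
  by_contra hcon
  push Not at hcon
  have h1 := Lin_det (Matrix.of fun k i => dot (A k) (w i)) τ (fun k i => hcon k i)
  have h2 : (Matrix.of fun k i => dot (A k) (w i) : Matrix (Fin 3) (Fin 3) ℝ).det =
      det3 (A 0) (A 1) (A 2) * det3 (w 0) (w 1) (w 2) := by
    unfold det3
    rw [← Matrix.det_transpose (!![(w 0).imI, (w 0).imJ, (w 0).imK; (w 1).imI, (w 1).imJ, (w 1).imK;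
      (w 2).imI, (w 2).imJ, (w 2).imK]), ← Matrix.det_mul]
    congr 1
    ext k i
    fin_cases k <;> fin_cases i <;>
      simp [Matrix.mul_apply, Fin.sum_univ_succ, dot, add_assoc]
  rw [h2, abs_mul] at h1
  have h3 : δ * d ≤ |det3 (A 0) (A 1) (A 2)| * |det3 (w 0) (w 1) (w 2)| :=
    mul_le_mul hA hw hd.le (abs_nonneg _)
  linarith

/-- Row LB. The same for the cofactors: `det3 (m i) (B k) (B l)`, `(k, l) = (1,2), (2,0), (0,1)`, is the scalar product of `m i` with the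
cross product `B k × B l`, and the determinant of the three cross products is `det3 B ^ 2`. -/
theorem lin2 (B m : Fin 3 → ℍ[ℝ]) (δ d τ : ℝ) (hδ : 0 < δ) (hd : 0 < d) (hτ : 0 < τ) (hB : δ ≤ |det3 (B 0) (B 1) (B 2)|)
    (hm : d ≤ |det3 (m 0) (m 1) (m 2)|) (h : 6 * τ ^ 3 ≤ δ ^ 2 * d) :
    ∃ k l i, k ≠ l ∧ τ ≤ |det3 (m i) (B k) (B l)| := by
  by_contra hcon
  push Not at hcon
  have h1 := Lin_det (Matrix.of fun i j => det3 (m i) (B (![1, 2, 0] j)) (B (![2, 0, 1] j))) τ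
    (fun i j => hcon _ _ i (by fin_cases j <;> decide))
  obtain ⟨C, hC⟩ : ∃ C : Matrix (Fin 3) (Fin 3) ℝ, C = !![(B 1).imJ * (B 2).imK - (B 1).imK * (B 2).imJ,
        (B 1).imK * (B 2).imI - (B 1).imI * (B 2).imK, (B 1).imI * (B 2).imJ - (B 1).imJ * (B 2).imI;
      (B 2).imJ * (B 0).imK - (B 2).imK * (B 0).imJ,
        (B 2).imK * (B 0).imI - (B 2).imI * (B 0).imK, (B 2).imI * (B 0).imJ - (B 2).imJ * (B 0).imI;
      (B 0).imJ * (B 1).imK - (B 0).imK * (B 1).imJ,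
        (B 0).imK * (B 1).imI - (B 0).imI * (B 1).imK,
        (B 0).imI * (B 1).imJ - (B 0).imJ * (B 1).imI] := ⟨_, rfl⟩
  have hc : C.det = det3 (B 0) (B 1) (B 2) ^ 2 := by
    unfold det3
    rw [hC, Matrix.det_fin_three, Matrix.det_fin_three]
    simp
    ring
  have h2 : (Matrix.of fun i j => det3 (m i) (B (![1, 2, 0] j)) (B (![2, 0, 1] j)) :
      Matrix (Fin 3) (Fin 3) ℝ).det =
      det3 (m 0) (m 1) (m 2) * det3 (B 0) (B 1) (B 2) ^ 2 := by
    rw [← hc, ← Matrix.det_transpose C]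
    unfold det3
    rw [← Matrix.det_mul]
    congr 1
    ext i j
    rw [hC]
    fin_cases i <;> fin_cases j <;>
      simp [Matrix.mul_apply, Fin.sum_univ_succ, Matrix.det_fin_three] <;> ring
  rw [h2, abs_mul, abs_pow] at h1
  have h3 : d * δ ^ 2 ≤ |det3 (m 0) (m 1) (m 2)| * |det3 (B 0) (B 1) (B 2)| ^ 2 :=
    mul_le_mul hm (pow_le_pow_left₀ hδ.le hB 2) (by positivity) (abs_nonneg _)
  linarith

/-- Row LC. `det4 p b c d = det3 (p̄ b) (p̄ c) (p̄ d)` for a unit quaternion `p` and `b, c, d` orthogonal to it. -/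
theorem det4_eq (p b c d : ℍ[ℝ]) (hp : ‖p‖ = 1) (hb : (star p * b).re = 0) (hc : (star p * c).re = 0)
    (hd : (star p * d).re = 0) : det4 p b c d = det3 (star p * b) (star p * c) (star p * d) := by
  have hn : p.re ^ 2 + p.imI ^ 2 + p.imJ ^ 2 + p.imK ^ 2 = 1 := by
    have h1 : Quaternion.normSq p = 1 := by
      rw [Quaternion.normSq_eq_norm_mul_self, hp, mul_one]
    rw [Quaternion.normSq_def'] at h1
    exact h1
  obtain ⟨L, hL⟩ : ∃ L : Matrix (Fin 4) (Fin 4) ℝ, L = !![p.re, -p.imI, -p.imJ, -p.imK;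
      p.imI, p.re, -p.imK, p.imJ; p.imJ, p.imK, p.re, -p.imI; p.imK, -p.imJ, p.imI, p.re] :=
    ⟨_, rfl⟩
  have hdet : L.det = 1 := by
    have h1 : L.det = (p.re ^ 2 + p.imI ^ 2 + p.imJ ^ 2 + p.imK ^ 2) ^ 2 := by
      rw [hL]
      simp [Matrix.det_succ_row_zero, Fin.sum_univ_succ, Fin.succAbove]
      ring
    rw [h1, hn]
    ring
  have hmul : !![p.re, p.imI, p.imJ, p.imK; b.re, b.imI, b.imJ, b.imK;
      c.re, c.imI, c.imJ, c.imK; d.re, d.imI, d.imJ, d.imK] * L =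
      !![1, 0, 0, 0; 0, (star p * b).imI, (star p * b).imJ, (star p * b).imK;
        0, (star p * c).imI, (star p * c).imJ, (star p * c).imK;
        0, (star p * d).imI, (star p * d).imJ, (star p * d).imK] := by
    have hb' : p.re * b.re + p.imI * b.imI + p.imJ * b.imJ + p.imK * b.imK = 0 := by
      have h := hb
      simp at h
      linarith
    have hc' : p.re * c.re + p.imI * c.imI + p.imJ * c.imJ + p.imK * c.imK = 0 := by
      have h := hc
      simp at h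
      linarith
    have hd' : p.re * d.re + p.imI * d.imI + p.imJ * d.imJ + p.imK * d.imK = 0 := by
      have h := hd
      simp at h
      linarith
    rw [hL]
    ext i j
    fin_cases i <;> fin_cases j <;> simp [Matrix.mul_apply, Fin.sum_univ_succ] <;> linarith
  have h4 : det4 p b c d = (!![p.re, p.imI, p.imJ, p.imK; b.re, b.imI, b.imJ, b.imK;
      c.re, c.imI, c.imJ, c.imK; d.re, d.imI, d.imJ, d.imK] * L).det := by
    rw [Matrix.det_mul, hdet, mul_one]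
    rfl
  rw [h4, hmul]
  unfold det3
  rw [Matrix.det_succ_row_zero]
  simp [Fin.sum_univ_succ, Matrix.det_fin_three]

end Sam094185
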