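import Pool.Agent.Lib.MP_094185_gt.Defs

open scoped Quaternion

namespace Sam094185

private theorem null_star_mul {a : ℍ[ℝ]} (ha : ‖a‖ = 1) : star a * a = 1 := by
  rw [Quaternion.star_mul_self, Quaternion.normSq_eq_norm_mul_self, ha]; simp

private theorem null_mul_star {a : ℍ[ℝ]} (ha : ‖a‖ = 1) : a * star a = 1 := by
  rw [Quaternion.self_mul_star, Quaternion.normSq_eq_norm_mul_self, ha]; simp

private theorem null_norm_star (a : ℍ[ℝ]) : ‖star a‖ = ‖a‖ := norm_star a

private noncomputable def null_v (p q : ℍ[ℝ]) (t : ℝ) : ℍ[ℝ] := (1 - t) • q - t • p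

private theorem null_v_ne {p q : ℍ[ℝ]} (hp : ‖p‖ = 1) (hq : ‖q‖ = 1) (hne : q ≠ p) {t : ℝ}
    (h0 : 0 ≤ t) (h1 : t ≤ 1) : null_v p q t ≠ 0 := by
  intro h
  unfold null_v at h
  have h2 : (1 - t) • q = t • p := sub_eq_zero.1 h
  have h3 := congrArg norm h2
  rw [norm_smul, norm_smul, hp, hq, mul_one, mul_one, Real.norm_of_nonneg h0,
    Real.norm_of_nonneg (by linarith)] at h3
  have h4 : t = 1 / 2 := by linarith
  subst h4
  apply hne
  have h5 : (1 / 2 : ℝ) • q = (1 / 2 : ℝ) • p := by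
    have : (1 - 1 / 2 : ℝ) = 1 / 2 := by norm_num
    rw [this] at h2; exact h2
  exact smul_right_injective ℍ[ℝ] (by norm_num : (1 / 2 : ℝ) ≠ 0) h5

private noncomputable def null_c (p q : ℍ[ℝ]) (t : ℝ) : ℍ[ℝ] := ‖null_v p q t‖⁻¹ • null_v p q t

private theorem null_c_norm {p q : ℍ[ℝ]} (hp : ‖p‖ = 1) (hq : ‖q‖ = 1) (hne : q ≠ p) {t : ℝ}
    (h0 : 0 ≤ t) (h1 : t ≤ 1) : ‖null_c p q t‖ = 1 := by
  unfold null_c
  have h := null_v_ne hp hq hne h0 h1
  rw [norm_smul, norm_inv, norm_norm, inv_mul_cancel₀ (norm_ne_zero_iff.2 h)]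

private theorem null_c_zero {p q : ℍ[ℝ]} (hq : ‖q‖ = 1) : null_c p q 0 = q := by
  unfold null_c null_v
  simp [hq]

private theorem null_c_one {p q : ℍ[ℝ]} (hp : ‖p‖ = 1) : null_c p q 1 = -p := by
  unfold null_c null_v
  simp [hp]

private theorem null_c_cont {Z : Type*} [TopologicalSpace Z] {p : ℍ[ℝ]} (hp : ‖p‖ = 1) {q : Z → ℍ[ℝ]}
    {t : Z → ℝ} (hqc : Continuous q) (htc : Continuous t) (hq : ∀ z, ‖q z‖ = 1)
    (hne : ∀ z, q z ≠ p) (h0 : ∀ z, 0 ≤ t z) (h1 : ∀ z, t z ≤ 1) :
    Continuous fun z => null_c p (q z) (t z) := by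
  have hv : Continuous fun z => null_v p (q z) (t z) := by
    unfold null_v
    exact ((continuous_const.sub htc).smul hqc).sub (htc.smul continuous_const)
  unfold null_c
  refine Continuous.smul (Continuous.inv₀ hv.norm fun z => ?_) hv
  exact norm_ne_zero_iff.2 (null_v_ne hp (hq z) (hne z) (h0 z) (h1 z))

private theorem null_zero_val {f : E3 → ℍ[ℝ]} (hf : CubeMap f) : f 0 = 1 :=
  hf.2.2 0 ⟨0, by simp⟩

/-- Row NA. a cube map missing a point `p` of `S^3` is contractible relative to the boundary: with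
`c t q = ((1 - t) q - t p) / ‖...‖` (not zero for `0 <= t <= 1`, `q ≠ p`, both of norm 1) and `τ = max 0 (min 1 t)` take
`H t x = star (c τ 1) * c τ (f x)`. -/
theorem contract (f : E3 → ℍ[ℝ]) (hf : CubeMap f) (p : ℍ[ℝ]) (hp : ‖p‖ = 1) (hmiss : ∀ x, f x ≠ p) :
    ∃ h : ℝ → E3 → ℍ[ℝ], Continuous (fun w : ℝ × E3 => h w.1 w.2) ∧ (∀ t x, ‖h t x‖ = 1) ∧ (∀ x, h 0 x = f x) ∧
      (∀ x, h 1 x = 1) ∧ ∀ t x, (∃ i, x i ∉ Set.Ioo (0 : ℝ) 1) → h t x = 1 := by
  have h1p : (1 : ℍ[ℝ]) ≠ p := by
    rw [← null_zero_val hf]; exact hmiss 0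
  have hn1 : ‖(1 : ℍ[ℝ])‖ = 1 := norm_one
  have hτ0 : ∀ t : ℝ, 0 ≤ max 0 (min 1 t) := fun t => le_max_left _ _
  have hτ1 : ∀ t : ℝ, max 0 (min 1 t) ≤ 1 := fun t => max_le zero_le_one (min_le_left _ _)
  refine ⟨fun t x => star (null_c p 1 (max 0 (min 1 t))) * null_c p (f x) (max 0 (min 1 t)),
    ?_, ?_, ?_, ?_, ?_⟩
  · have ht : Continuous fun w : ℝ × E3 => max 0 (min 1 w.1) :=
      continuous_const.max (continuous_const.min continuous_fst)
    refine Continuous.mul (Continuous.star ?_) ?_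
    · exact null_c_cont hp continuous_const ht (fun _ => hn1) (fun _ => h1p) (fun w => hτ0 w.1)
        (fun w => hτ1 w.1)
    · exact null_c_cont hp (hf.1.continuous.comp continuous_snd) ht (fun w => hf.2.1 w.2)
        (fun w => hmiss w.2) (fun w => hτ0 w.1) (fun w => hτ1 w.1)
  · intro t x
    rw [norm_mul, null_norm_star, null_c_norm hp hn1 h1p (hτ0 t) (hτ1 t),
      null_c_norm hp (hf.2.1 x) (hmiss x) (hτ0 t) (hτ1 t), mul_one]
  · intro x
    have e : max (0 : ℝ) (min 1 0) = 0 := by norm_num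
    simp only [e]
    rw [null_c_zero hn1, null_c_zero (hf.2.1 x), star_one, one_mul]
  · intro x
    have e : max (0 : ℝ) (min 1 1) = 1 := by norm_num
    simp only [e]
    rw [null_c_one hp, null_c_one hp, star_neg, neg_mul_neg, null_star_mul hp]
  · intro t x hx
    have e : f x = 1 := hf.2.2 x hx
    simp only [e]
    exact null_star_mul (null_c_norm hp hn1 h1p (hτ0 t) (hτ1 t))

private theorem null_miss {f : E3 → ℍ[ℝ]} (hf : CubeMap f) {q : ℍ[ℝ]} (h : ∀ x ∈ cube, f x ≠ q) :
    ∀ x, f x ≠ q := by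
  intro x
  by_cases hx : x ∈ cube
  · exact h x hx
  · have h1 : ∃ i, x i ∉ Set.Ioo (0 : ℝ) 1 := by
      by_contra hc
      push Not at hc
      exact hx fun i => ⟨(hc i).1.le, (hc i).2.le⟩
    rw [hf.2.2 x h1, ← null_zero_val hf]
    exact h 0 fun i => by simp

private theorem null_fst_cont : Continuous fun z : E6 => z.fst := by fun_prop

private theorem null_snd_cont : Continuous fun z : E6 => z.snd := by fun_prop

/-- Row NB. If the commutator is not null-homotopic then both maps are onto `S^3`, already from the closed cube.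
(If `f` misses `p` use `samelson (h t) g`, likewise for `g`; and a point outside the closed cube has the value `1 = f 0`, `0 ∈ cube`.) -/
theorem onto_of_not_null (f g : E3 → ℍ[ℝ]) (hf : CubeMap f) (hg : CubeMap g) (h : ¬ Null6 (samelson f g)) :
    (∀ q : ℍ[ℝ], ‖q‖ = 1 → ∃ x ∈ cube, f x = q) ∧ (∀ q : ℍ[ℝ], ‖q‖ = 1 → ∃ x ∈ cube, g x = q) := by
  constructor
  · intro q hq
    by_contra hc
    push Not at hc
    obtain ⟨k, hk1, hk2, hk3, hk4, hk5⟩ := contract f hf q hq (null_miss hf hc)
    apply h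
    refine ⟨fun t z => samelson (k t) g z, ?_, ?_, ?_, ?_, ?_⟩
    · unfold samelson
      have c1 : Continuous fun w : ℝ × E6 => k w.1 w.2.fst :=
        hk1.comp (continuous_fst.prodMk (null_fst_cont.comp continuous_snd))
      have c2 : Continuous fun w : ℝ × E6 => g w.2.snd :=
        hg.1.continuous.comp (null_snd_cont.comp continuous_snd)
      exact ((c1.mul c2).mul c1.star).mul c2.star
    · intro t z
      simp only [samelson]
      rw [norm_mul, norm_mul, norm_mul, null_norm_star, null_norm_star, hk2, hg.2.1]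
      norm_num
    · intro z
      simp only [samelson]
      rw [hk3]
    · intro z
      simp only [samelson]
      rw [hk4, star_one, one_mul, mul_one, null_mul_star (hg.2.1 _)]
    · intro t z hz
      simp only [samelson]
      rcases hz with hz | hz
      · rw [hk5 t _ hz, star_one, one_mul, mul_one, null_mul_star (hg.2.1 _)]
      · rw [hg.2.2 _ hz, star_one, mul_one, mul_one, null_mul_star (hk2 t _)]
  · intro q hq
    by_contra hc
    push Not at hc
    obtain ⟨k, hk1, hk2, hk3, hk4, hk5⟩ := contract g hg q hq (null_miss hg hc)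
    apply h
    refine ⟨fun t z => samelson f (k t) z, ?_, ?_, ?_, ?_, ?_⟩
    · unfold samelson
      have c1 : Continuous fun w : ℝ × E6 => k w.1 w.2.snd :=
        hk1.comp (continuous_fst.prodMk (null_snd_cont.comp continuous_snd))
      have c2 : Continuous fun w : ℝ × E6 => f w.2.fst :=
        hf.1.continuous.comp (null_fst_cont.comp continuous_snd)
      exact ((c2.mul c1).mul c2.star).mul c1.star
    · intro t z
      simp only [samelson]
      rw [norm_mul, norm_mul, norm_mul, null_norm_star, null_norm_star, hk2, hf.2.1]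
      norm_num
    · intro z
      simp only [samelson]
      rw [hk3]
    · intro z
      simp only [samelson]
      rw [hk4, star_one, mul_one, mul_one, null_mul_star (hf.2.1 _)]
    · intro t z hz
      simp only [samelson]
      rcases hz with hz | hz
      · rw [hf.2.2 _ hz, star_one, one_mul, mul_one, null_mul_star (hk2 t _)]
      · rw [hk5 t _ hz, star_one, mul_one, mul_one, null_mul_star (hf.2.1 _)]

end Sam094185
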