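import Mathlib

namespace Sam094185

/-- Row LD. combinatorics: 20 pairs, at most 10 violate `G1`, at most 8 violate `G2`. -/
theorem pairs (G1 G2 : Fin 5 → Fin 4 → Prop)
    (h1 : ∀ i, ∀ j k l : Fin 4, j ≠ k → j ≠ l → k ≠ l → G1 i j ∨ G1 i k ∨ G1 i l)
    (h2 : ∀ j, ∀ i k l : Fin 5, i ≠ k → i ≠ l → k ≠ l → G2 i j ∨ G2 k j ∨ G2 l j) :
    ∃ i j, G1 i j ∧ G2 i j := by
  classical
  by_contra hcon
  push Not at hcon
  have hA : ∀ i : Fin 5, (Finset.univ.filter (fun j : Fin 4 => ¬ G1 i j)).card ≤ 2 := by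
    intro i
    by_contra hc
    obtain ⟨a, b, c, ha, hb, hc', hab, hac, hbc⟩ := Finset.two_lt_card_iff.1 (not_le.1 hc)
    simp only [Finset.mem_filter, Finset.mem_univ, true_and] at ha hb hc'
    rcases h1 i a b c hab hac hbc with h | h | h
    · exact ha h
    · exact hb h
    · exact hc' h
  have hB : ∀ j : Fin 4, (Finset.univ.filter (fun i : Fin 5 => ¬ G2 i j)).card ≤ 2 := by
    intro j
    by_contra hc
    obtain ⟨a, b, c, ha, hb, hc', hab, hac, hbc⟩ := Finset.two_lt_card_iff.1 (not_le.1 hc)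
    simp only [Finset.mem_filter, Finset.mem_univ, true_and] at ha hb hc'
    rcases h2 j a b c hab hac hbc with h | h | h
    · exact ha h
    · exact hb h
    · exact hc' h
  have key : ∑ _i : Fin 5, ∑ _j : Fin 4, (1 : ℕ) ≤
      (∑ i : Fin 5, ∑ j : Fin 4, (if ¬ G1 i j then 1 else 0)) +
        ∑ j : Fin 4, ∑ i : Fin 5, (if ¬ G2 i j then 1 else 0) := by
    rw [Finset.sum_comm (f := fun (j : Fin 4) (i : Fin 5) => if ¬ G2 i j then (1 : ℕ) else 0),
      ← Finset.sum_add_distrib]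
    refine Finset.sum_le_sum fun i _ => ?_
    rw [← Finset.sum_add_distrib]
    refine Finset.sum_le_sum fun j _ => ?_
    by_cases h : G1 i j
    · have := hcon i j h
      simp [h, this]
    · simp [h]
  have s1 : ∑ i : Fin 5, ∑ j : Fin 4, (if ¬ G1 i j then (1 : ℕ) else 0) ≤ ∑ _i : Fin 5, 2 := by
    refine Finset.sum_le_sum fun i _ => ?_
    rw [← Finset.card_filter]
    exact hA i
  have s2 : ∑ j : Fin 4, ∑ i : Fin 5, (if ¬ G2 i j then (1 : ℕ) else 0) ≤ ∑ _j : Fin 4, 2 := by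
    refine Finset.sum_le_sum fun j _ => ?_
    rw [← Finset.card_filter]
    exact hB j
  have e0 : ∑ _i : Fin 5, ∑ _j : Fin 4, (1 : ℕ) = 20 := by simp
  have e1 : ∑ _i : Fin 5, (2 : ℕ) = 10 := by simp
  have e2 : ∑ _j : Fin 4, (2 : ℕ) = 8 := by simp
  omega

end Sam094185
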