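import Pool.Agent.Lib.MP_094185_gt.Defs

open scoped Quaternion

namespace Sam094185

section SVaux

variable {E F U : Type*} [NormedAddCommGroup E] [InnerProductSpace ℝ E] [FiniteDimensional ℝ E]
    [NormedAddCommGroup F] [InnerProductSpace ℝ F] [FiniteDimensional ℝ F]
    [NormedAddCommGroup U] [InnerProductSpace ℝ U] [FiniteDimensional ℝ U]

omit [FiniteDimensional ℝ E] in
private theorem SV_norm_sq {n : ℕ} (b : OrthonormalBasis (Fin n) ℝ E) (w : E) :
    ‖w‖ ^ 2 = ∑ j, (b.repr w j) ^ 2 := by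
  rw [← b.repr.norm_map w, EuclideanSpace.norm_sq_eq]
  simp

private theorem SV_energy {n : ℕ} (hn : Module.finrank ℝ E = n) (f : E →ₗ[ℝ] F) (w : E) :
    ‖f w‖ ^ 2 = ∑ j, f.isSymmetric_adjoint_comp_self.eigenvalues hn j *
      ((f.isSymmetric_adjoint_comp_self.eigenvectorBasis hn).repr w j) ^ 2 := by
  have h1 : ‖f w‖ ^ 2 = inner ℝ w ((LinearMap.adjoint f ∘ₗ f) w) := by
    rw [LinearMap.comp_apply, LinearMap.adjoint_inner_right, real_inner_self_eq_norm_sq]
  rw [h1, ← (f.isSymmetric_adjoint_comp_self.eigenvectorBasis hn).repr.inner_map_map, PiLp.inner_apply]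
  refine Finset.sum_congr rfl fun j _ => ?_
  rw [LinearMap.IsSymmetric.eigenvectorBasis_apply_self_apply]
  simp only [RCLike.inner_apply, conj_trivial]
  simp
  ring

private theorem SV_interlace (L : U →ₗᵢ[ℝ] E) (T : E →ₗ[ℝ] F) (i : ℕ) :
    (T ∘ₗ L.toLinearMap).singularValues i ≤ T.singularValues i := by
  set S : U →ₗ[ℝ] F := T ∘ₗ L.toLinearMap with hS
  rcases le_or_gt (Module.finrank ℝ U) i with hi | hi
  · rw [S.singularValues_of_finrank_le hi]
    exact T.singularValues_nonneg i
  · obtain ⟨m, hm⟩ : ∃ m, Module.finrank ℝ U = m := ⟨_, rfl⟩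
    obtain ⟨n, hn⟩ : ∃ n, Module.finrank ℝ E = n := ⟨_, rfl⟩
    have hmn : m ≤ n := by
      rw [← hm, ← hn]
      exact LinearMap.finrank_le_finrank_of_injective L.injective
    have him : i < m := hm ▸ hi
    have hin : i < n := lt_of_lt_of_le him hmn
    let bU := S.isSymmetric_adjoint_comp_self.eigenvectorBasis hm
    let bE := T.isSymmetric_adjoint_comp_self.eigenvectorBasis hn
    let Φ : U →ₗ[ℝ] (Fin i → ℝ) × (Fin (m - 1 - i) → ℝ) :=
      { toFun := fun w => (fun j => bE.repr (L w) ⟨j.1, j.2.trans hin⟩,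
          fun j => bU.repr w ⟨i + 1 + j.1, by have := j.2; omega⟩)
        map_add' := fun x y => by
          ext j <;> simp
        map_smul' := fun c x => by
          ext j <;> simp }
    have hker : LinearMap.ker Φ ≠ ⊥ := by
      apply LinearMap.ker_ne_bot_of_finrank_lt
      rw [Module.finrank_prod, Module.finrank_fin_fun, Module.finrank_fin_fun, hm]
      omega
    obtain ⟨w, hw, hw0⟩ := (Submodule.ne_bot_iff _).1 hker
    have hΦ : Φ w = 0 := LinearMap.mem_ker.1 hw
    have hE : ∀ j : Fin n, j.1 < i → bE.repr (L w) j = 0 := by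
      intro j hj
      have := congrFun (congrArg Prod.fst hΦ) ⟨j.1, hj⟩
      exact this
    have hU : ∀ j : Fin m, i < j.1 → bU.repr w j = 0 := by
      intro j hj
      have := congrFun (congrArg Prod.snd hΦ) ⟨j.1 - (i + 1), by have := j.2; omega⟩
      have h2 : (⟨i + 1 + (j.1 - (i + 1)), by have := j.2; omega⟩ : Fin m) = j := by
        ext
        simp
        omega
      rw [← h2]
      exact this
    have hanU := S.isSymmetric_adjoint_comp_self.eigenvalues_antitone hm
    have hanE := T.isSymmetric_adjoint_comp_self.eigenvalues_antitone hn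
    have h1 : S.singularValues i ^ 2 * ‖w‖ ^ 2 ≤ ‖S w‖ ^ 2 := by
      rw [SV_energy hm S w, SV_norm_sq bU w, Finset.mul_sum, S.sq_singularValues_of_lt hm him]
      refine Finset.sum_le_sum fun j _ => ?_
      rcases lt_or_ge i j.1 with hj | hj
      · have h0 := hU j hj
        change _ * (bU.repr w j) ^ 2 ≤ _ * (bU.repr w j) ^ 2
        rw [h0]
        simp
      · exact mul_le_mul_of_nonneg_right (hanU (show j ≤ ⟨i, him⟩ from hj)) (sq_nonneg _)
    have h2 : ‖T (L w)‖ ^ 2 ≤ T.singularValues i ^ 2 * ‖L w‖ ^ 2 := by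
      rw [SV_energy hn T (L w), SV_norm_sq bE (L w), Finset.mul_sum, T.sq_singularValues_of_lt hn hin]
      refine Finset.sum_le_sum fun j _ => ?_
      rcases lt_or_ge j.1 i with hj | hj
      · have h0 := hE j hj
        change _ * (bE.repr (L w) j) ^ 2 ≤ _ * (bE.repr (L w) j) ^ 2
        rw [h0]
        simp
      · exact mul_le_mul_of_nonneg_right (hanE (show (⟨i, hin⟩ : Fin n) ≤ j from hj)) (sq_nonneg _)
    have h3 : S w = T (L w) := rfl
    rw [L.norm_map, ← h3] at h2
    have hpos : 0 < ‖w‖ ^ 2 := by positivity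
    have h4 : S.singularValues i ^ 2 ≤ T.singularValues i ^ 2 :=
      le_of_mul_le_mul_right (h1.trans h2) hpos
    exact le_of_sq_le_sq h4 (T.singularValues_nonneg i)

end SVaux

/-- Row SV. The volume of the image of an orthonormal triple is at most the product of the three largest singular values.
Proof.  Let `V` be the span of `u`, `S` the restriction of `T` to `V`.  `LinearMap.normDet_sq_eq_det_gram` and
`LinearMap.normDet_eq_prod_singularValues`: the Gram determinant is the square of the product of the 3 singular values of `S`.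
Interlacing `σ_i(S) <= σ_i(T)`: on the span `W` of the first `i+1` eigenvectors of `S* S` we have `‖S w‖ >= σ_i(S) ‖w‖`, on the span
`W'` of the eigenvectors number `i, i+1, ...` of `T* T` we have `‖T w‖ <= σ_i(T) ‖w‖`, and `dim W + dim W' > dim E`, so `W ∩ W' ≠ 0`. -/
theorem gram_le {E F : Type*} [NormedAddCommGroup E] [InnerProductSpace ℝ E] [FiniteDimensional ℝ E]
    [NormedAddCommGroup F] [InnerProductSpace ℝ F] [FiniteDimensional ℝ F] (T : E →ₗ[ℝ] F) (u : Fin 3 → E)
    (hu : Orthonormal ℝ u) :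
    (Matrix.gram ℝ (fun i => T (u i))).det ≤
      (T.singularValues 0 * T.singularValues 1 * T.singularValues 2) ^ 2 := by
  let b : OrthonormalBasis (Fin 3) ℝ (EuclideanSpace ℝ (Fin 3)) := EuclideanSpace.basisFun (Fin 3) ℝ
  let L₀ : EuclideanSpace ℝ (Fin 3) →ₗ[ℝ] E := b.toBasis.constr ℝ u
  have hL₀ : ∀ i, L₀ (b i) = u i := fun i => by
    have := b.toBasis.constr_basis ℝ u i
    rwa [OrthonormalBasis.coe_toBasis] at this
  have hcomp : L₀ ∘ b.toBasis = u := by
    funext i
    rw [Function.comp_apply, OrthonormalBasis.coe_toBasis]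
    exact hL₀ i
  let L : EuclideanSpace ℝ (Fin 3) →ₗᵢ[ℝ] E := L₀.isometryOfOrthonormal (v := b.toBasis)
    (by rw [OrthonormalBasis.coe_toBasis]; exact b.orthonormal) (by rw [hcomp]; exact hu)
  have hL : ∀ i, L (b i) = u i := hL₀
  have h1 := (T ∘ₗ L.toLinearMap).normDet_sq_eq_det_gram b
  have h2 : (fun i => (T ∘ₗ L.toLinearMap) (b i)) = fun i => T (u i) := by
    funext i
    change T (L (b i)) = _
    rw [hL]
  rw [h2] at h1
  rw [← h1, LinearMap.normDet_eq_prod_singularValues, finrank_euclideanSpace_fin, Finset.prod_range_succ,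
    Finset.prod_range_succ, Finset.prod_range_one]
  simp only [RCLike.ofReal_real_eq_id, id]
  have hnn := (T ∘ₗ L.toLinearMap).singularValues_nonneg
  have hnT := T.singularValues_nonneg
  refine pow_le_pow_left₀ (mul_nonneg (mul_nonneg (hnn 0) (hnn 1)) (hnn 2)) ?_ 2
  refine mul_le_mul (mul_le_mul (SV_interlace L T 0) (SV_interlace L T 1) (hnn 1) (hnT 0)) (SV_interlace L T 2)
    (hnn 2) (mul_nonneg (hnT 0) (hnT 1))

end Sam094185
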