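import Pool.Agent.Lib.MP_094185_gt.Area
import Pool.Agent.Lib.MP_094185_gt.Cone
import Pool.Agent.Lib.MP_094185_gt.GenCont
import Pool.Agent.Lib.MP_094185_gt.Alg
import Pool.Agent.Lib.MP_094185_gt.Gram
import Pool.Agent.Lib.MP_094185_gt.SV
import Pool.Agent.Lib.MP_094185_gt.Lin
import Pool.Agent.Lib.MP_094185_gt.Pairs
import Pool.Agent.Lib.MP_094185_gt.Calc
import Pool.Agent.Lib.MP_094185_gt.Null

open scoped Quaternion
open MeasureTheory

namespace Sam094185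

/-- a positive real below finitely many positive extended reals -/
theorem exists_delta {ι : Type*} [Fintype ι] (v : ι → ENNReal) (hv : ∀ i, 0 < v i) :
    ∃ δ : ℝ, 0 < δ ∧ ∀ i, ENNReal.ofReal δ < v i := by
  have h : ∀ i, ∃ δ : ℝ, 0 < δ ∧ ENNReal.ofReal δ < v i := by
    intro i
    obtain ⟨a, ha0, ha⟩ := ENNReal.lt_iff_exists_nnreal_btwn.1 (hv i)
    refine ⟨a, ?_, ?_⟩
    · have : (0 : NNReal) < a := by exact_mod_cast ha0
      exact_mod_cast this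
    · simpa using ha
  choose δ hδ h2 using h
  by_cases hne : Nonempty ι
  · refine ⟨Finset.univ.inf' Finset.univ_nonempty δ, ?_, ?_⟩
    · rw [Finset.lt_inf'_iff]; intro i _; exact hδ i
    · intro i
      exact lt_of_le_of_lt (ENNReal.ofReal_le_ofReal (Finset.inf'_le _ (Finset.mem_univ i))) (h2 i)
  · exact ⟨1, one_pos, fun i => (hne ⟨i⟩).elim⟩

/-- a point of the cube where the Jacobian is large and the value is near `p` -/
theorem exists_big (f : E3 → ℍ[ℝ]) (hf : ContDiff ℝ 1 f) (hn : ∀ x, ‖f x‖ = 1)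
    (hon : ∀ q : ℍ[ℝ], ‖q‖ = 1 → ∃ x ∈ cube, f x = q) (p : ℍ[ℝ]) (r δ : ℝ) (hδ : 0 < δ)
    (hv : ENNReal.ofReal δ < volume (Quaternion.linearIsometryEquivTuple '' cone p r)) :
    ∃ x ∈ cube, ‖f x - p‖ < r ∧ δ < |jac f x| := by
  by_contra hcon
  push Not at hcon
  exact absurd (area f hf hn p r δ hδ.le (fun q hq _ => hon q hq) (fun x hx h => hcon x hx h)) (not_le.2 hv)

theorem exists_tau (a : ℝ) (ha : 0 < a) : ∃ τ : ℝ, 0 < τ ∧ 6 * τ ^ 3 ≤ a := by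
  refine ⟨min 1 (a / 6), lt_min one_pos (by positivity), ?_⟩
  set τ := min 1 (a / 6) with hτ
  have h0 : 0 < τ := lt_min one_pos (by positivity)
  have h1 : τ ≤ 1 := min_le_left _ _
  have h2 : τ ≤ a / 6 := min_le_right _ _
  have h3 : τ ^ 3 ≤ τ := by nlinarith [mul_pos h0 h0, mul_nonneg h0.le (sub_nonneg.2 h1), mul_nonneg (mul_nonneg h0.le h0.le) (sub_nonneg.2 h1)]
  linarith

theorem orth (k l m : Fin 3) (h : l ≠ m) :
    Orthonormal ℝ (![WithLp.toLp 2 (e k, 0), WithLp.toLp 2 (0, e l), WithLp.toLp 2 (0, e m)] : Fin 3 → E6) := by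
  rw [orthonormal_iff_ite]
  intro i j
  have hh : ∀ a b : Fin 3, inner ℝ (e a) (e b) = if a = b then (1 : ℝ) else 0 := by
    intro a b
    simp only [e]
    rw [EuclideanSpace.inner_single_left]
    simp
  have hn : ∀ a : Fin 3, ‖e a‖ = 1 := by
    intro a; simp [e]
  fin_cases i <;> fin_cases j <;> simp [WithLp.prod_inner_apply, hh, hn, h, h.symm]

theorem main : ∃ c : ℝ, 0 < c ∧ ∀ f g : E3 → ℍ[ℝ], CubeMap f → CubeMap g → ¬ Null6 (samelson f g) →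
    ∀ D : ℝ, (∀ z : E6, dil3 (fderiv ℝ (samelson f g) z) ≤ D) → c ≤ D := by
  obtain ⟨r, d, hr, hd, hgen⟩ := genpos
  obtain ⟨δ, hδ, hv⟩ := exists_delta
    (fun s : Fin 5 ⊕ Fin 4 => volume (Quaternion.linearIsometryEquivTuple '' cone (Sum.elim P0 Q0 s) r))
    (fun s => by
      cases s with
      | inl i => exact cone_pos _ (norm_P0 i) r hr
      | inr j => exact cone_pos _ (norm_Q0 j) r hr)
  obtain ⟨τ₁, hτ₁, ht₁⟩ := exists_tau (δ * d) (mul_pos hδ hd)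
  obtain ⟨τ₂, hτ₂, ht₂⟩ := exists_tau (δ ^ 2 * d) (mul_pos (pow_pos hδ 2) hd)
  refine ⟨4 * τ₁ * τ₂, by positivity, ?_⟩
  intro f g hf hg hnull D hD
  obtain ⟨honf, hong⟩ := onto_of_not_null f g hf hg hnull
  have hx : ∀ i, ∃ x ∈ cube, ‖f x - P0 i‖ < r ∧ δ < |jac f x| := fun i =>
    exists_big f hf.1 hf.2.1 honf (P0 i) r δ hδ (hv (Sum.inl i))
  have hy : ∀ j, ∃ x ∈ cube, ‖g x - Q0 j‖ < r ∧ δ < |jac g x| := fun j =>
    exists_big g hg.1 hg.2.1 hong (Q0 j) r δ hδ (hv (Sum.inr j))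
  choose x _ hxr hxJ using hx
  choose y _ hyr hyJ using hy
  obtain ⟨hg1, hg2⟩ := hgen (fun i => f (x i)) (fun j => g (y j)) hxr hyr
  set A : Fin 5 → Fin 3 → ℍ[ℝ] := fun i k => star (f (x i)) * fderiv ℝ f (x i) (e k) with hA
  set B : Fin 4 → Fin 3 → ℍ[ℝ] := fun j k => star (g (y j)) * fderiv ℝ g (y j) (e k) with hB
  have hAre : ∀ i k, (A i k).re = 0 := fun i k => re_fderiv f hf.1 hf.2.1 (x i) (e k)
  have hBre : ∀ j k, (B j k).re = 0 := fun j k => re_fderiv g hg.1 hg.2.1 (y j) (e k)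
  have hAd : ∀ i, δ ≤ |det3 (A i 0) (A i 1) (A i 2)| := by
    intro i
    have := det4_eq (f (x i)) _ _ _ (hf.2.1 _) (hAre i 0) (hAre i 1) (hAre i 2)
    rw [← this]; exact (hxJ i).le
  have hBd : ∀ j, δ ≤ |det3 (B j 0) (B j 1) (B j 2)| := by
    intro j
    have := det4_eq (g (y j)) _ _ _ (hg.2.1 _) (hBre j 0) (hBre j 1) (hBre j 2)
    rw [← this]; exact (hyJ j).le
  obtain ⟨i, j, ⟨k, hk⟩, ⟨l, m, hlm, hm⟩⟩ := pairs
    (fun i j => ∃ k, τ₁ ≤ |dot (A i k) (wvec (f (x i)) (g (y j)))|)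
    (fun i j => ∃ l m, l ≠ m ∧ τ₂ ≤ |det3 (f (x i)) (B j l) (B j m)|)
    (by
      intro i j k l h1 h2 h3
      obtain ⟨a, b, hab⟩ := lin1 (A i) ![wvec (f (x i)) (g (y j)), wvec (f (x i)) (g (y k)), wvec (f (x i)) (g (y l))]
        δ d τ₁ hδ hd hτ₁ (hAd i) (hg2 i j k l h1 h2 h3) ht₁
      fin_cases b
      · exact Or.inl ⟨a, hab⟩
      · exact Or.inr (Or.inl ⟨a, hab⟩)
      · exact Or.inr (Or.inr ⟨a, hab⟩))
    (by
      intro j i k l h1 h2 h3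
      obtain ⟨a, b, c, hab, habc⟩ := lin2 (B j) ![f (x i), f (x k), f (x l)] δ d τ₂ hδ hd hτ₂ (hBd j)
        (hg1 i k l h1 h2 h3) ht₂
      fin_cases c
      · exact Or.inl ⟨a, b, hab, habc⟩
      · exact Or.inr (Or.inl ⟨a, b, hab, habc⟩)
      · exact Or.inr (Or.inr ⟨a, b, hab, habc⟩))
  set z : E6 := WithLp.toLp 2 (x i, y j) with hz
  set T := fderiv ℝ (samelson f g) z with hT
  have h1 := gram_le (T : E6 →ₗ[ℝ] ℍ[ℝ]) _ (orth k l m hlm)
  have h2 : (fun s => (T : E6 →ₗ[ℝ] ℍ[ℝ])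
      ((![WithLp.toLp 2 (e k, 0), WithLp.toLp 2 (0, e l), WithLp.toLp 2 (0, e m)] : Fin 3 → E6) s)) =
      ![T (WithLp.toLp 2 (e k, 0)), T (WithLp.toLp 2 (0, e l)), T (WithLp.toLp 2 (0, e m))] := by
    funext s; fin_cases s <;> rfl
  rw [h2, gram_eq (samelson f g z) _ _ _ ?_ (inner_fderiv f g hf.1 hg.1 hf.2.1 hg.2.1 z _)
    (inner_fderiv f g hf.1 hg.1 hf.2.1 hg.2.1 z _) (inner_fderiv f g hf.1 hg.1 hf.2.1 hg.2.1 z _)] at h1
  · have e1 : T (WithLp.toLp 2 (e k, 0)) = _ := fderiv_fst f g hf.1 hg.1 hf.2.1 hg.2.1 (x i) (y j) (e k)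
    have e2 : T (WithLp.toLp 2 (0, e l)) = _ := fderiv_snd f g hf.1 hg.1 hf.2.1 hg.2.1 (x i) (y j) (e l)
    have e3 : T (WithLp.toLp 2 (0, e m)) = _ := fderiv_snd f g hf.1 hg.1 hf.2.1 hg.2.1 (x i) (y j) (e m)
    have e4 := det_samelson (f (x i)) (g (y j)) (A i k) (B j l) (B j m) (hf.2.1 _) (hg.2.1 _) (hAre i k) (hBre j l) (hBre j m)
    have e5 : |det4 (samelson f g z) (T (WithLp.toLp 2 (e k, 0))) (T (WithLp.toLp 2 (0, e l))) (T (WithLp.toLp 2 (0, e m)))| =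
        4 * |dot (A i k) (wvec (f (x i)) (g (y j)))| * |det3 (f (x i)) (B j l) (B j m)| := by
      rw [e1, e2, e3]; exact e4
    have e6 : 0 ≤ dil3 T := by
      unfold dil3
      have := (T : E6 →ₗ[ℝ] ℍ[ℝ]).singularValues_nonneg
      exact mul_nonneg (mul_nonneg (this 0) (this 1)) (this 2)
    have e7 : |det4 (samelson f g z) (T (WithLp.toLp 2 (e k, 0))) (T (WithLp.toLp 2 (0, e l))) (T (WithLp.toLp 2 (0, e m)))| ≤ dil3 T := by
      apply abs_le_of_sq_le_sq _ e6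
      exact h1
    have e8 : 4 * τ₁ * τ₂ ≤ 4 * |dot (A i k) (wvec (f (x i)) (g (y j)))| * |det3 (f (x i)) (B j l) (B j m)| := by
      have : τ₁ * τ₂ ≤ |dot (A i k) (wvec (f (x i)) (g (y j)))| * |det3 (f (x i)) (B j l) (B j m)| :=
        mul_le_mul hk hm hτ₂.le (abs_nonneg _)
      linarith
    calc 4 * τ₁ * τ₂ ≤ _ := e8
      _ = _ := e5.symm
      _ ≤ _ := e7
      _ ≤ D := hD z
  · simp only [samelson, norm_mul, norm_star, hf.2.1, hg.2.1, mul_one]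

end Sam094185
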